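import Pool.Agent.Lib.MP_305fdd_al.F8.NG.Main

/-!
# MP_305fdd_al, positive monodromies: complete families of characters and exceptional values
-/

set_option autoImplicit false

namespace Pool.Agent.F8.NG

open Pool.Agent.MP_305fdd_al Pool.Agent.Lib.MP_305fdd_al Pool.Agent.F2X Pool.Agent.F8
  Pool.Agent.F8.HN

private theorem cpx_orth (A K : Type) [CommGroup A] [Finite A] [Field K] [IsAlgClosed K]
    [CharZero K] {c : ℕ} (e : (A →* Kˣ) ≃ Fin c) (g : A) (hg : g ≠ 1) :
    ∑ i, ((e.symm i) g).val = 0 := by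
  haveI : NeZero (Monoid.exponent A) := ⟨Monoid.exponent_ne_zero_of_finite⟩
  haveI : NeZero ((Monoid.exponent A : ℕ) : K) := ⟨Nat.cast_ne_zero.2 (NeZero.ne _)⟩
  obtain ⟨ψ₀, hψ₀⟩ := CommGroup.exists_apply_ne_one_of_hasEnoughRootsOfUnity A K hg
  have h1 : (ψ₀ g).val * ∑ i, ((e.symm i) g).val = ∑ i, ((e.symm i) g).val := by
    rw [Finset.mul_sum]
    refine Fintype.sum_equiv ((e.symm.trans (Equiv.mulLeft ψ₀)).trans e) _ _ (fun i => ?_)
    simp
  have h2 : ((ψ₀ g).val - 1) * ∑ i, ((e.symm i) g).val = 0 := by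
    rw [sub_mul, h1, one_mul, sub_self]
  rcases mul_eq_zero.1 h2 with h | h
  · exact absurd (Units.ext (by simpa using sub_eq_zero.1 h)) hψ₀
  · exact h

/-- the characters over an algebraically closed field of characteristic zero form a complete family -/
theorem cpx (K : Type) [Field K] [IsAlgClosed K] [CharZero K] (α : MulAut F)
    (h1 : (AM α).val.det = 1) (h2 : 2 < (AM α).val.trace) :
    ∃ (c : ℕ) (X : Fin c → (GA α →* Kˣ)), (c : ℤ) = (AM α).val.trace - 2 ∧ Cpl α X ∧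
      ∀ i g, X i g ^ c = 1 := by
  obtain ⟨hfin, hcard⟩ := cg_det α h1 h2
  haveI : NeZero (Monoid.exponent (CG α)) := ⟨Monoid.exponent_ne_zero_of_finite⟩
  haveI : NeZero ((Monoid.exponent (CG α) : ℕ) : K) := ⟨Nat.cast_ne_zero.2 (NeZero.ne _)⟩
  obtain ⟨E⟩ := CommGroup.monoidHom_mulEquiv_of_hasEnoughRootsOfUnity (CG α) K
  haveI : Finite (CG α →* Kˣ) := Finite.of_equiv _ E.symm.toEquiv
  have hc : Nat.card (CG α →* Kˣ) = Nat.card (CG α) := Nat.card_congr E.toEquiv
  have e : (CG α →* Kˣ) ≃ Fin (Nat.card (CG α)) := (Finite.equivFin _).trans (finCongr hc)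
  have hinv : ∀ (ψ : CG α →* Kˣ) (w : F), (ψ.comp (cl α)) (α w) =
      1 * (ψ.comp (cl α)) w * 1⁻¹ := by
    intro ψ w
    rw [one_mul, inv_one, mul_one, MonoidHom.comp_apply, MonoidHom.comp_apply, cl_al]
  refine ⟨Nat.card (CG α), fun i => liftA ((e.symm i).comp (cl α)) 1 (hinv _), hcard, ?_, ?_⟩
  · refine ⟨fun i => liftA_tA _ _ _, ?_, ?_⟩
    · exact Nat.cast_ne_zero.2 Nat.card_pos.ne'
    · intro w hw
      have := cpx_orth (CG α) K e (cl α w) hw
      rw [← this]
      refine Finset.sum_congr rfl (fun i _ => ?_)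
      rw [liftA_iA]
      rfl
  · intro i g
    obtain ⟨w, n, rfl⟩ := GA_cases α g
    rw [map_mul, map_zpow, liftA_iA, liftA_tA, one_zpow, mul_one, MonoidHom.comp_apply, ← map_pow,
      pow_card_eq_one', map_one]

/-- complete families and ring homomorphisms -/
theorem cpm {R S : Type} [CommRing R] [CommRing S] (f : R →+* S) (α : MulAut F) {c : ℕ}
    (X : Fin c → (GA α →* Rˣ)) (hX : Cpl α X) (hc : (c : S) ≠ 0) :
    Cpl α fun i => (Units.map f.toMonoidHom).comp (X i) := by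
  refine ⟨fun i => ?_, hc, fun w hw => ?_⟩
  · rw [MonoidHom.comp_apply, hX.t1 i, map_one]
  · have h := hX.orth w hw
    have h2 : ∑ i, (((Units.map f.toMonoidHom).comp (X i)) (iA α w)).val =
        f (∑ i, (X i (iA α w)).val) := by
      rw [map_sum]
      rfl
    rw [h2, h, map_zero]

/-- the power of a positive monodromy: trace and determinant -/
theorem Wd_pow (V1 : List Bool) (b : ℕ) (a : MulAut F) (ha : al (Wd V1 b) = a) (n : ℕ)
    (hn : 1 ≤ n) : (AM (a ^ n)).val.det = 1 ∧ 2 < (AM (a ^ n)).val.trace := by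
  obtain ⟨hL, hR, _⟩ := rep_Wd V1 b n hn
  have h := al_rep (Wd V1 b) n
  rw [ha] at h
  rw [← h]
  refine ⟨al_det _, ?_⟩
  rw [al_tr]
  exact_mod_cast two_lt _ hL hR

open Polynomial in
private theorem root {K : Type} [Field K] [IsAlgClosed K] (s : K) :
    ∃ z : Kˣ, z.val * z.val - s * z.val + 1 = 0 := by
  have hdeg : (X ^ 2 - C s * X + 1 : K[X]).degree = 2 := by
    have : (X ^ 2 - C s * X + 1 : K[X]) = C 1 * X ^ 2 + C (-s) * X + C 1 := by
      simp only [map_one, map_neg]; ring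
    rw [this]
    exact degree_quadratic one_ne_zero
  obtain ⟨z, hz⟩ := IsAlgClosed.exists_root (X ^ 2 - C s * X + 1 : K[X]) (by rw [hdeg]; decide)
  have h3 : z ^ 2 - s * z + 1 = 0 := by
    simpa [IsRoot] using hz
  have hz0 : z ≠ 0 := by
    rintro rfl
    simp at h3
  exact ⟨Units.mk0 z hz0, by show z * z - s * z + 1 = 0; linear_combination h3⟩

/-- the twist by `τ` does not change the trace on the cohomology of `F` -/
theorem sT_tw {K : Type} [CommRing K] (V : List Bool) {α : MulAut F} (ρ : GA α →* SL2 K)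
    (χ : GA α →* Kˣ) (τ : Kˣ) : sT V ρ (χ * (pw τ).comp (nA α)) = sT V ρ χ := by
  unfold sT
  congr 2
  apply List.map_congr_left
  intro v _
  rw [MonoidHom.mul_apply, MonoidHom.comp_apply, nA_iA, map_one, mul_one]

/-- the criterion for exceptional values -/
theorem ex_iff {K : Type} [Field K] (V : List Bool) (α : MulAut F) (hα : al V = α)
    (ρ : GA α →* SL2 K) (hi : Irr (ρ.comp (iA α))) (χ : GA α →* Kˣ) (hχ : χ (tA α) = 1) (τ : Kˣ) :
    Ex1 ρ (χ * (pw τ).comp (nA α)) ↔ τ.val * τ.val - sT V ρ χ * τ.val + 1 = 0 := by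
  subst hα
  have e1 : (χ * (pw τ).comp (nA (al V))) (tA (al V)) = τ := by
    rw [MonoidHom.mul_apply, hχ, one_mul, MonoidHom.comp_apply, nA_tA, pw_ofAdd, zpow_one]
  constructor
  · intro h
    have := n1a V ρ _ hi h
    rwa [e1, sT_tw] at this
  · intro h
    apply n1b V ρ _ hi
    rw [e1, sT_tw]
    exact h

/-- exceptional values exist over an algebraically closed field -/
theorem ex0 {K : Type} [Field K] [IsAlgClosed K] (V : List Bool) (α : MulAut F) (hα : al V = α)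
    (ρ : GA α →* SL2 K) (hi : Irr (ρ.comp (iA α))) (χ : GA α →* Kˣ) (hχ : χ (tA α) = 1) :
    ∃ τ : Kˣ, Ex1 ρ (χ * (pw τ).comp (nA α)) ∧
      τ.val * τ.val - sT V ρ χ * τ.val + 1 = 0 := by
  obtain ⟨τ, hτ⟩ := root (sT V ρ χ)
  exact ⟨τ, (ex_iff V α hα ρ hi χ hχ τ).2 hτ, hτ⟩

/-- the figure-eight monodromy -/
theorem al_phi : al (Wd [] 0) = phi := by
  apply aut_ext
  · show (eL * eR) ga = _
    rw [MulAut.mul_apply, eR_ga, map_mul, eL_ga, eL_x0, phi_ga]
    unfold x0; group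
  · show (eL * eR) gb = _
    rw [MulAut.mul_apply, eR_gb, eL_ga, phi_gb]

end Pool.Agent.F8.NG
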