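import Pool.Agent.Lib.MP_305fdd_al.F8.NG.Fac

/-!
# MP_305fdd_al, positive monodromies: the classes of the occurrences

Every non-trivial class of `ℤ² / (al V - 1)` contains exactly one occurrence, the trivial class three.
-/

set_option autoImplicit false

namespace Pool.Agent.F8.NG

open Pool.Agent.MP_305fdd_al Pool.Agent.Lib.MP_305fdd_al Pool.Agent.F2X Pool.Agent.F8
  Pool.Agent.F8.HN

/-! ### The Jacobian matrix over a commutative ring -/

private theorem Jd_mul {R : Type} [CommRing R] (c : F →* R) (x : F) (l : List F) :
    ((l.map (fun w => x * w)).map c).sum = c x * (l.map c).sum := by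
  induction l with
  | nil => simp
  | cons a l ih =>
    simp only [List.map_cons, List.sum_cons, map_mul] at ih ⊢
    rw [ih]; ring

private theorem Jd_L {R : Type} [CommRing R] (c : F →* R) (V : List Bool) (j : Bool) :
    ((oc (false :: V) false j).map c).sum =
      ((oc V false j).map c).sum + c (al V x0) * ((oc V true j).map c).sum := by
  rw [oc_Lx, List.map_append, List.sum_append, Jd_mul]

private theorem Jd_R {R : Type} [CommRing R] (c : F →* R) (V : List Bool) (j : Bool) :
    ((oc (true :: V) true j).map c).sum =
      ((oc V true j).map c).sum + c (al V ga) * ((oc V false j).map c).sum := by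
  rw [oc_Ru, List.map_append, List.sum_append, Jd_mul]

/-- determinant and fundamental formula -/
theorem Jd {R : Type} [CommRing R] (c : F →* R) (V : List Bool) :
    ((oc V false false).map c).sum * ((oc V true true).map c).sum -
      ((oc V false true).map c).sum * ((oc V true false).map c).sum = 1 ∧
    ∀ i : Bool, ((oc V i false).map c).sum * (c x0 - 1) + ((oc V i true).map c).sum * (c ga - 1) =
      c (al V (lt i)) - 1 := by
  induction V with
  | nil =>
    refine ⟨?_, ?_⟩
    · simp [oc]
    · intro i
      cases i <;> simp [oc, lt, al]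
  | cons b V ih =>
    obtain ⟨hd, hi⟩ := ih
    have h0 := hi false
    have h1 := hi true
    simp only [lt] at h0 h1
    cases b with
    | false =>
      refine ⟨?_, ?_⟩
      · rw [Jd_L, Jd_L, oc_Lu, oc_Lu]
        linear_combination hd
      · intro i
        cases i
        · simp only [lt]
          rw [Jd_L, Jd_L, al_Lx, map_mul]
          linear_combination h0 + c (al V x0) * h1
        · simp only [lt]
          rw [oc_Lu, oc_Lu, al_Lu]
          exact h1
    | true =>
      refine ⟨?_, ?_⟩
      · rw [Jd_R, Jd_R, oc_Rx, oc_Rx]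
        linear_combination hd
      · intro i
        cases i
        · simp only [lt]
          rw [oc_Rx, oc_Rx, al_Rx]
          exact h0
        · simp only [lt]
          rw [Jd_R, Jd_R, al_Ru, map_mul]
          linear_combination h1 + c (al V ga) * h0

/-- `2 - tr J` is invariant -/
theorem Jq {R : Type} [CommRing R] (c : F →* R) (V : List Bool) (hc : ∀ w, c (al V w) = c w)
    (w : F) : (2 - ((oT V).map c).sum) * c w = 2 - ((oT V).map c).sum := by
  obtain ⟨hdet, hrow⟩ := Jd c V
  have h0 := hrow false
  have h1 := hrow true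
  rw [hc] at h0 h1
  have e0 : c (lt false) = c x0 := rfl
  have e1 : c (lt true) = c ga := rfl
  rw [e0] at h0
  rw [e1] at h1
  have hz : ((oT V).map c).sum = ((oc V false false).map c).sum + ((oc V true true).map c).sum := by
    unfold oT; rw [List.map_append, List.sum_append]
  rw [hz]
  generalize ((oc V false false).map c).sum = a at *
  generalize ((oc V true true).map c).sum = d at *
  generalize ((oc V false true).map c).sum = b at *
  generalize ((oc V true false).map c).sum = c' at *
  have hx : (2 - (a + d)) * c x0 = 2 - (a + d) := by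
    linear_combination (c x0 - 1) * (-hdet) + (d - 1) * h0 - b * h1
  have hg : (2 - (a + d)) * c ga = 2 - (a + d) := by
    linear_combination (c ga - 1) * (-hdet) - c' * h0 + (a - 1) * h1
  generalize 2 - (a + d) = z at *
  have hmul : ∀ v w, z * c v = z → z * c w = z → z * c (v * w) = z := by
    intro v w hv hw
    rw [map_mul, ← mul_assoc, hv, hw]
  have hinv : ∀ v, z * c v = z → z * c v⁻¹ = z := by
    intro v hv
    calc z * c v⁻¹ = z * c v * c v⁻¹ := by rw [hv]
      _ = z := by rw [mul_assoc, ← map_mul, mul_inv_cancel, map_one, mul_one]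
  have hgb : z * c gb = z := by
    have : gb = ga * x0⁻¹ := by unfold x0; group
    rw [this]
    exact hmul _ _ hg (hinv _ hx)
  induction w using FreeGroup.induction_on with
  | C1 => rw [map_one, mul_one]
  | of i =>
    fin_cases i
    · exact hg
    · exact hgb
  | inv_of i _ =>
    apply hinv
    fin_cases i
    · exact hg
    · exact hgb
  | mul x y hx hy => exact hmul x y hx hy

/-! ### Trace and determinant -/

/-- the number of occurrences -/
theorem oc_len (V : List Bool) (i : Bool) : ((oc V i false).length : ℤ) = cx (al V (lt i)) ∧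
    ((oc V i true).length : ℤ) = cu (al V (lt i)) := by
  induction V generalizing i with
  | nil =>
    cases i
    · show (1 : ℤ) = cx x0 ∧ (0 : ℤ) = cu x0
      rw [cx_x0, cu_x0]; exact ⟨rfl, rfl⟩
    · show (0 : ℤ) = cx ga ∧ (1 : ℤ) = cu ga
      rw [cx_ga, cu_ga]; exact ⟨rfl, rfl⟩
  | cons b V ih =>
    have h0 := ih false
    have h1 := ih true
    simp only [lt] at h0 h1
    cases b <;> cases i <;> simp only [lt]
    · rw [oc_Lx, oc_Lx, al_Lx, cx_mul, cu_mul, List.length_append, List.length_append,
        List.length_map, List.length_map]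
      push_cast
      rw [h0.1, h0.2, h1.1, h1.2]
      exact ⟨rfl, rfl⟩
    · rw [oc_Lu, oc_Lu, al_Lu]; exact h1
    · rw [oc_Rx, oc_Rx, al_Rx]; exact h0
    · rw [oc_Ru, oc_Ru, al_Ru, cx_mul, cu_mul, List.length_append, List.length_append,
        List.length_map, List.length_map]
      push_cast
      rw [h0.1, h0.2, h1.1, h1.2]
      exact ⟨rfl, rfl⟩

/-- the trace is the number of occurrences -/
theorem al_tr (V : List Bool) : (AM (al V)).val.trace = ((oT V).length : ℤ) := by
  have e : (AM (al V)).val.trace = cx (al V x0) + cu (al V ga) := by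
    rw [Matrix.trace_fin_two]
    have h0 : (AM (al V)).val 0 0 = vec (al V ga) 0 := rfl
    have h1 : (AM (al V)).val 1 1 = vec (al V gb) 1 := rfl
    have h2 : vec (al V x0) = vec (al V ga) - vec (al V gb) := by
      unfold x0; rw [map_mul, map_inv, vec_mul, vec_inv]; abel
    rw [h0, h1]
    unfold cx cu
    rw [h2, Pi.sub_apply]
    ring
  rw [e]
  have h0 := (oc_len V false).1
  have h1 := (oc_len V true).2
  simp only [lt] at h0 h1
  unfold oT
  rw [List.length_append]
  push_cast
  rw [h0, h1]

private theorem det_eL : (AM eL).val.det = 1 := by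
  have e : (AM eL).val = !![1, -1; 0, 1] := by
    rw [AM_val]
    ext i j
    show vec (eL (FreeGroup.of j)) i = _
    fin_cases j
    · show vec (eL ga) i = _
      rw [eL_ga]
      fin_cases i <;> simp
    · show vec (eL gb) i = _
      rw [eL_gb]
      fin_cases i <;> simp
  rw [e, Matrix.det_fin_two_of]; norm_num

private theorem det_eR : (AM eR).val.det = 1 := by
  have e : (AM eR).val = !![2, 1; -1, 0] := by
    rw [AM_val]
    ext i j
    show vec (eR (FreeGroup.of j)) i = _
    fin_cases j
    · show vec (eR ga) i = _
      rw [eR_ga']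
      fin_cases i <;> simp
    · show vec (eR gb) i = _
      rw [eR_gb]
      fin_cases i <;> simp
  rw [e, Matrix.det_fin_two_of]; norm_num

theorem al_det (V : List Bool) : (AM (al V)).val.det = 1 := by
  induction V with
  | nil => rw [al_nil, map_one]; simp
  | cons b V ih =>
    rw [al_cons, map_mul, Units.val_mul, Matrix.det_mul, ih, one_mul]
    cases b
    · exact det_eL
    · exact det_eR

theorem oc_one (V : List Bool) (i : Bool) : (1 : F) ∈ oc V i i := by
  obtain ⟨l, hl⟩ := im_head V i
  have := oc_of_im V i i [] l hl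
  exact this

theorem len_Lx (V : List Bool) (h : false ∈ V) : 1 ≤ (oc V false true).length := by
  induction V with
  | nil => exact absurd h List.not_mem_nil
  | cons b V ih =>
    cases b with
    | false =>
      rw [oc_Lx, List.length_append, List.length_map]
      have := List.length_pos_of_mem (oc_one V true)
      omega
    | true =>
      rw [oc_Rx]
      exact ih (by simpa using h)

theorem len_Ru (V : List Bool) (h : true ∈ V) : 1 ≤ (oc V true false).length := by
  induction V with
  | nil => exact absurd h List.not_mem_nil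
  | cons b V ih =>
    cases b with
    | true =>
      rw [oc_Ru, List.length_append, List.length_map]
      have := List.length_pos_of_mem (oc_one V false)
      omega
    | false =>
      rw [oc_Lu]
      exact ih (by simpa using h)

/-- hyperbolicity -/
theorem two_lt (V : List Bool) (h0 : false ∈ V) (h1 : true ∈ V) : 2 < (oT V).length := by
  have hJ := (Jd (1 : F →* ℤ) V).1
  have hs : ∀ l : List F, ((l.map (1 : F →* ℤ)).sum : ℤ) = l.length := by
    intro l
    induction l with
    | nil => rfl
    | cons a l ih =>
      rw [List.map_cons, List.sum_cons, ih, List.length_cons, MonoidHom.one_apply]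
      push_cast; ring
  rw [hs, hs, hs, hs] at hJ
  have hb := len_Lx V h0
  have hc := len_Ru V h1
  have ha := List.length_pos_of_mem (oc_one V false)
  have hd := List.length_pos_of_mem (oc_one V true)
  unfold oT
  rw [List.length_append]
  by_contra hlt
  have e1 : (oc V false false).length = 1 := by omega
  have e2 : (oc V true true).length = 1 := by omega
  rw [e1, e2] at hJ
  have h3 : (1 : ℤ) ≤ (oc V false true).length := by exact_mod_cast hb
  have h4 : (1 : ℤ) ≤ (oc V true false).length := by exact_mod_cast hc
  have h5 : (1 : ℤ) * 1 ≤ (oc V false true).length * (oc V true false).length :=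
    mul_le_mul h3 h4 (by norm_num) (by linarith)
  push_cast at hJ
  linarith

/-! ### The class group -/

private theorem cg_card (M : Matrix (Fin 2) (Fin 2) ℤ) (h : M.det ≠ 0) :
    Nat.card ((Fin 2 → ℤ) ⧸ (M.mulVecLin.toAddMonoidHom).range) = M.det.natAbs := by
  have hinj : Function.Injective M.mulVecLin := by
    rw [injective_iff_map_eq_zero]
    intro v hv
    by_contra hne
    exact h (Matrix.exists_mulVec_eq_zero_iff.1 ⟨v, hne, hv⟩)
  have h1 := Submodule.natAbs_det_equiv (LinearMap.range M.mulVecLin)
    (LinearEquiv.ofInjective M.mulVecLin hinj)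
  have h2 : (LinearMap.range M.mulVecLin).subtype ∘ₗ AddMonoidHom.toIntLinearMap
      ((LinearEquiv.ofInjective M.mulVecLin hinj : (Fin 2 → ℤ) ≃ₗ[ℤ] _) : (Fin 2 → ℤ) →+ _) =
      Matrix.toLin' M := by
    ext v i
    rfl
  rw [h2, LinearMap.det_toLin'] at h1
  rw [h1]
  rfl

/-- the class group of an automorphism of determinant one -/
theorem cg_det (α : MulAut F) (h1 : (AM α).val.det = 1) (h2 : 2 < (AM α).val.trace) :
    Finite (CG α) ∧ (Nat.card (CG α) : ℤ) = (AM α).val.trace - 2 := by
  have hdet : ((AM α).val - 1).det = 2 - (AM α).val.trace := by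
    rw [Matrix.trace_fin_two]
    rw [Matrix.det_fin_two] at h1
    rw [Matrix.det_fin_two]
    simp only [Matrix.sub_apply, Matrix.one_apply_eq, ne_eq, zero_ne_one, not_false_eq_true,
      Matrix.one_apply_ne, one_ne_zero]
    linear_combination h1
  have hne : ((AM α).val - 1).det ≠ 0 := by rw [hdet]; omega
  have hc : Nat.card (CG α) = ((AM α).val - 1).det.natAbs := cg_card _ hne
  refine ⟨?_, ?_⟩
  · apply Nat.finite_of_card_ne_zero
    rw [hc]
    exact Int.natAbs_ne_zero.2 hne
  · rw [hc, hdet, Int.natCast_natAbs, abs_of_neg (by omega)]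
    ring

theorem cg_al (V : List Bool) (h0 : false ∈ V) (h1 : true ∈ V) :
    Finite (CG (al V)) ∧ (Nat.card (CG (al V)) : ℤ) = ((oT V).length : ℤ) - 2 := by
  have h2 := two_lt V h0 h1
  have := cg_det (al V) (al_det V) (by rw [al_tr]; exact_mod_cast h2)
  rw [al_tr] at this
  exact this

/-! ### The key lemma -/

/-- the universal character with values in the group ring of the class group -/
private noncomputable def U_c (α : MulAut F) : F →* MonoidAlgebra ℤ (CG α) :=
  (MonoidAlgebra.of ℤ (CG α)).comp (cl α)

private theorem U_c_apply (α : MulAut F) (w : F) : U_c α w = MonoidAlgebra.single (cl α w) 1 := rfl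

open Classical in
private theorem U_coeff (α : MulAut F) (g : CG α) (l : List F) :
    ((l.map (U_c α)).sum).coeff g = (l.countP (fun w => decide (cl α w = g)) : ℤ) := by
  induction l with
  | nil => simp
  | cons a l ih =>
    rw [List.map_cons, List.sum_cons, MonoidAlgebra.coeff_add, Finsupp.add_apply, ih, U_c_apply,
      MonoidAlgebra.coeff_single, Finsupp.single_apply, List.countP_cons]
    by_cases h : cl α a = g
    · simp [h]; ring
    · simp [h]

open Classical in
private theorem U_sum (α : MulAut F) [Fintype (CG α)] (l : List F) :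
    ∑ g : CG α, (l.countP (fun w => decide (cl α w = g)) : ℤ) = (l.length : ℤ) := by
  induction l with
  | nil => simp
  | cons a l ih =>
    have h : ∀ g : CG α, (((a :: l).countP (fun w => decide (cl α w = g)) : ℕ) : ℤ)
        = (l.countP (fun w => decide (cl α w = g)) : ℤ) + (if cl α a = g then 1 else 0) := by
      intro g
      rw [List.countP_cons]
      by_cases h : cl α a = g
      · simp [h]
      · simp [h]
    rw [Finset.sum_congr rfl (fun g _ => h g), Finset.sum_add_distrib, ih,
      Finset.sum_ite_eq Finset.univ (cl α a) (fun _ => (1 : ℤ)), if_pos (Finset.mem_univ _)]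
    push_cast [List.length_cons]
    ring

open Classical in
/-- every non-trivial class contains exactly one occurrence, the trivial class three -/
theorem lemU (V : List Bool) (hL : false ∈ V) (hR : true ∈ V) (c0 : CG (al V)) :
    (oT V).countP (fun w => decide (cl (al V) w = c0)) = if c0 = 1 then 3 else 1 := by
  obtain ⟨hfin, hcard⟩ := cg_al V hL hR
  have := hfin
  have : Fintype (CG (al V)) := Fintype.ofFinite _
  have hinv : ∀ w, U_c (al V) (al V w) = U_c (al V) w := fun w => by
    rw [U_c_apply, U_c_apply, cl_al]
  have hz := Jq (U_c (al V)) V hinv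
  set z : MonoidAlgebra ℤ (CG (al V)) := 2 - ((oT V).map (U_c (al V))).sum with hzdef
  have hco : ∀ g : CG (al V), z.coeff g = (if g = 1 then 2 else 0) -
      ((oT V).countP (fun w => decide (cl (al V) w = g)) : ℤ) := by
    intro g
    rw [hzdef, MonoidAlgebra.coeff_sub, Finsupp.sub_apply, U_coeff]
    have h2 : ((2 : MonoidAlgebra ℤ (CG (al V))).coeff g) = if g = 1 then 2 else 0 := by
      have : (2 : MonoidAlgebra ℤ (CG (al V))).coeff = Finsupp.single 1 2 := rfl
      rw [this, Finsupp.single_apply]
      by_cases h : g = 1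
      · rw [if_pos h, if_pos h.symm]
      · rw [if_neg h, if_neg (fun h' => h h'.symm)]
    rw [h2]
  have hconst : ∀ g : CG (al V), z.coeff g = z.coeff 1 := by
    intro g
    obtain ⟨w, hw⟩ := cl_surjective (al V) g
    have h := congrArg (fun y : MonoidAlgebra ℤ (CG (al V)) => y.coeff g) (hz w)
    beta_reduce at h
    rw [U_c_apply, hw, MonoidAlgebra.coeff_mul_single_apply, mul_inv_cancel, mul_one] at h
    exact h.symm
  have hsum : ∑ g : CG (al V), z.coeff g = 2 - (oT V).length := by
    rw [Finset.sum_congr rfl (fun g _ => hco g), Finset.sum_sub_distrib, U_sum,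
      Finset.sum_ite_eq' Finset.univ (1 : CG (al V)) (fun _ => (2 : ℤ)),
      if_pos (Finset.mem_univ _)]
  have hsum2 : ∑ g : CG (al V), z.coeff g = ((oT V).length - 2) * z.coeff 1 := by
    rw [Finset.sum_congr rfl (fun g _ => hconst g), Finset.sum_const, Finset.card_univ,
      ← Nat.card_eq_fintype_card, nsmul_eq_mul, hcard]
  have hpos : (0 : ℤ) < (oT V).length - 2 := by
    have := two_lt V hL hR
    have h' : (2 : ℤ) < (oT V).length := by exact_mod_cast this
    linarith
  have h1 : z.coeff 1 = -1 := by
    have h : ((oT V).length - 2 : ℤ) * (z.coeff 1 + 1) = 0 := by linarith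
    rcases mul_eq_zero.1 h with h | h
    · omega
    · linarith
  have h0 := hco c0
  rw [hconst c0, h1] at h0
  have h3 : ((oT V).countP (fun w => decide (cl (al V) w = c0)) : ℤ) = if c0 = 1 then 3 else 1 := by
    split_ifs at h0 ⊢
    · linarith
    · linarith
  have h4 : (((oT V).countP (fun w => decide (cl (al V) w = c0)) : ℕ) : ℤ)
      = ((if c0 = 1 then 3 else 1 : ℕ) : ℤ) := by
    rw [h3]
    split_ifs <;> rfl
  exact_mod_cast h4

/-! ### Proper occurrences -/

private lemma Pcl_three {α : Type} (l : List α) (p : α → Bool) (a b c : α) (ha : a ∈ l)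
    (hb : b ∈ l) (hc : c ∈ l) (hpa : p a = true) (hpb : p b = true) (hpc : p c = true)
    (hab : a ≠ b) (hac : a ≠ c) (hbc : b ≠ c) : 3 ≤ l.countP p := by
  classical
  rw [List.countP_eq_length_filter]
  have h1 : ({a, b, c} : Finset α) ⊆ (l.filter p).toFinset := by
    intro x hx
    simp only [Finset.mem_insert, Finset.mem_singleton] at hx
    rw [List.mem_toFinset, List.mem_filter]
    rcases hx with rfl | rfl | rfl
    · exact ⟨ha, hpa⟩
    · exact ⟨hb, hpb⟩
    · exact ⟨hc, hpc⟩
  have h2 : ({a, b, c} : Finset α).card = 3 := Finset.card_eq_three.2 ⟨a, b, c, hab, hac, hbc, rfl⟩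
  have h3 := Finset.card_le_card h1
  have h4 := List.toFinset_card_le (l.filter p)
  omega

open Classical in
/-- proper occurrences have non-trivial class -/
theorem pr_cl (V : List Bool) (hL : false ∈ V) (hR : true ∈ V)
    (hend : ∃ l, im V true = l ++ [true]) (w : F) (hw : Pr V w) : cl (al V) w ≠ 1 := by
  intro hcl
  obtain ⟨hw1, hw2, hw3⟩ := hw
  have h := lemU V hL hR 1
  rw [if_pos rfl, oT, List.countP_append] at h
  have h1 : 1 ≤ (oc V false false).countP (fun w => decide (cl (al V) w = 1)) :=
    List.one_le_countP_iff.2 ⟨1, oc_one V false, by simp⟩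
  have hmem : al V ga * ga⁻¹ ∈ oc V true true := by
    obtain ⟨l, hl⟩ := hend
    have h2 := oc_of_im V true true l [] hl
    have h3 : al V ga * ga⁻¹ = pd l := by
      have h4 := pd_im V true
      rw [hl, pd_append] at h4
      have h5 : pd [true] = ga := mul_one _
      rw [h5] at h4
      rw [mul_inv_eq_iff_eq_mul]
      exact h4.symm
    rw [h3]; exact h2
  have he : cl (al V) (al V ga * ga⁻¹) = 1 := by
    rw [map_mul, cl_al, ← map_mul, mul_inv_cancel, map_one]
  have hle : cx (al V ga * ga⁻¹) + cu (al V ga * ga⁻¹) =
      cx (al V ga) + cu (al V ga) - 1 := by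
    rw [cx_mul, cu_mul, cx_inv, cu_inv, cx_ga, cu_ga]; ring
  have h3 : 3 ≤ (oc V true true).countP (fun w => decide (cl (al V) w = 1)) := by
    apply Pcl_three _ _ 1 w (al V ga * ga⁻¹) (oc_one V true) hw1 hmem
    · simp
    · simpa using hcl
    · simpa using he
    · rintro rfl
      rw [cx_one, cu_one] at hw2
      omega
    · intro h0
      rw [← h0, cx_one, cu_one] at hle
      omega
    · intro h0
      rw [← h0] at hle
      omega
  omega

/-- the powers of `Wd V₁ b` -/
theorem rep_Wd (V1 : List Bool) (b n : ℕ) (hn : 1 ≤ n) : false ∈ rep (Wd V1 b) n ∧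
    true ∈ rep (Wd V1 b) n ∧ ∃ l, im (rep (Wd V1 b) n) true = l ++ [true] := by
  obtain ⟨k, rfl⟩ : ∃ k, n = k + 1 := ⟨n - 1, by omega⟩
  have e : rep (Wd V1 b) (k + 1) = (rep (Wd V1 b) k ++ V1) ++ true :: Ls (b + 1) := by
    show rep (Wd V1 b) k ++ Wd V1 b = _
    unfold Wd
    rw [List.append_assoc]
  rw [e]
  refine ⟨by simp [List.replicate_succ], by simp, ?_⟩
  rw [im_append]
  obtain ⟨l, hl⟩ := im_head (rep (Wd V1 b) k ++ V1) true
  rcases ims_RLs_end b (im (rep (Wd V1 b) k ++ V1) true) with h | h
  · rw [hl, ims_cons, im_RLs_true] at h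
    simp at h
  · exact h

end Pool.Agent.F8.NG
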