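import Pool.Agent.Lib.MP_305fdd_al.F8.NG.Cls
import Pool.Agent.Lib.MP_305fdd_al.F8.PN.lin
import Pool.Agent.Lib.MP_305fdd_al.F8.PN.trq
import Pool.Agent.Lib.MP_305fdd_al.F8.PN.ncb

/-!
# MP_305fdd_al, positive monodromies: twisted cohomology
-/

set_option autoImplicit false

namespace Pool.Agent.F8.NG

open Pool.Agent.MP_305fdd_al Pool.Agent.Lib.MP_305fdd_al Pool.Agent.F2X Pool.Agent.F8
  Pool.Agent.F8.HN

noncomputable section

/-! ### The operator on the cocycles -/

/-- the entry `(i, j)` of the Jacobian matrix -/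
def Jm {R : Type} [CommRing R] (V : List Bool) (m : F →* Matrix (Fin 2) (Fin 2) R) (i j : Bool) :
    Matrix (Fin 2) (Fin 2) R := ((oc V i j).map m).sum

/-- the operator `c ↦ T c ∘ al V` on the cocycles of `F` (pairs of values at `x0, u`) -/
def opU {K : Type} [Field K] (V : List Bool) (m : F →* Matrix (Fin 2) (Fin 2) K)
    (T : Matrix (Fin 2) (Fin 2) K) : E2 K →ₗ[K] E2 K where
  toFun c := (T.mulVec ((Jm V m false false).mulVec c.1 + (Jm V m false true).mulVec c.2),
    T.mulVec ((Jm V m true false).mulVec c.1 + (Jm V m true true).mulVec c.2))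
  map_add' c d := by
    simp only [Prod.fst_add, Prod.snd_add, Matrix.mulVec_add, Prod.mk_add_mk, Prod.mk.injEq]
    constructor <;> abel
  map_smul' r c := by
    simp only [Prod.smul_fst, Prod.smul_snd, Matrix.mulVec_smul, RingHom.id_apply, Prod.smul_mk,
      Matrix.mulVec_add, smul_add]

private theorem od_det {K : Type} [Field K] (L : E2 K →ₗ[K] E2 K)
    (a b c d : Matrix (Fin 2) (Fin 2) K)
    (h : ∀ v : E2 K, L v = (a.mulVec v.1 + b.mulVec v.2, c.mulVec v.1 + d.mulVec v.2)) :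
    LinearMap.det L = (Matrix.fromBlocks a b c d).det := by
  have e : L = (LinearEquiv.sumArrowLequivProdArrow (Fin 2) (Fin 2) K K :
      (Fin 2 ⊕ Fin 2 → K) →ₗ[K] E2 K) ∘ₗ Matrix.toLin' (Matrix.fromBlocks a b c d) ∘ₗ
      ((LinearEquiv.sumArrowLequivProdArrow (Fin 2) (Fin 2) K K).symm :
        E2 K →ₗ[K] (Fin 2 ⊕ Fin 2 → K)) := by
    apply LinearMap.ext
    intro v
    rw [h]
    show _ = LinearEquiv.sumArrowLequivProdArrow (Fin 2) (Fin 2) K K
      (Matrix.toLin' (Matrix.fromBlocks a b c d)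
        ((LinearEquiv.sumArrowLequivProdArrow (Fin 2) (Fin 2) K K).symm v))
    rw [Matrix.toLin'_apply, Matrix.fromBlocks_mulVec]
    have h1 : ((LinearEquiv.sumArrowLequivProdArrow (Fin 2) (Fin 2) K K).symm v) ∘ Sum.inl =
        v.1 := by
      funext i
      exact LinearEquiv.sumArrowLequivProdArrow_symm_apply_inl v.1 v.2 i
    have h2 : ((LinearEquiv.sumArrowLequivProdArrow (Fin 2) (Fin 2) K K).symm v) ∘ Sum.inr =
        v.2 := by
      funext i
      exact LinearEquiv.sumArrowLequivProdArrow_symm_apply_inr v.1 v.2 i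
    rw [h1, h2]
    apply Prod.ext
    · funext i
      rw [LinearEquiv.sumArrowLequivProdArrow_apply_fst]
      rfl
    · funext i
      rw [LinearEquiv.sumArrowLequivProdArrow_apply_snd]
      rfl
  rw [e, LinearMap.det_conj, LinearMap.det_toLin']

private theorem Jm_L {R : Type} [CommRing R] (V : List Bool)
    (m : F →* Matrix (Fin 2) (Fin 2) R) (j : Bool) :
    Jm (false :: V) m false j = Jm V m false j + m (al V x0) * Jm V m true j := by
  unfold Jm
  rw [oc_Lx, List.map_append, List.sum_append, List.map_map]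
  congr 1
  rw [← List.sum_map_mul_left]
  congr 1
  apply List.map_congr_left
  intro w _
  show m (al V x0 * w) = _
  rw [map_mul]

private theorem Jm_R {R : Type} [CommRing R] (V : List Bool)
    (m : F →* Matrix (Fin 2) (Fin 2) R) (j : Bool) :
    Jm (true :: V) m true j = Jm V m true j + m (al V ga) * Jm V m false j := by
  unfold Jm
  rw [oc_Ru, List.map_append, List.sum_append, List.map_map]
  congr 1
  rw [← List.sum_map_mul_left]
  congr 1
  apply List.map_congr_left
  intro w _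
  show m (al V ga * w) = _
  rw [map_mul]

private theorem od_J {R : Type} [CommRing R] (m : F →* Matrix (Fin 2) (Fin 2) R) (V : List Bool) :
    (Matrix.fromBlocks (Jm V m false false) (Jm V m false true) (Jm V m true false)
      (Jm V m true true)).det = 1 := by
  induction V with
  | nil =>
    have e1 : Jm [] m false false = 1 := by
      show ([1].map m).sum = 1
      simp
    have e2 : Jm [] m false true = 0 := by
      show (List.map m []).sum = 0
      simp
    have e3 : Jm [] m true false = 0 := by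
      show (List.map m []).sum = 0
      simp
    have e4 : Jm [] m true true = 1 := by
      show ([1].map m).sum = 1
      simp
    rw [e1, e2, e3, e4, Matrix.fromBlocks_one, Matrix.det_one]
  | cons b V ih =>
    cases b with
    | false =>
      have e1 : ∀ j, Jm (false :: V) m true j = Jm V m true j := fun j => rfl
      have e : Matrix.fromBlocks (Jm (false :: V) m false false) (Jm (false :: V) m false true)
          (Jm (false :: V) m true false) (Jm (false :: V) m true true) =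
          Matrix.fromBlocks 1 (m (al V x0)) 0 1 *
            Matrix.fromBlocks (Jm V m false false) (Jm V m false true) (Jm V m true false)
              (Jm V m true true) := by
        rw [Matrix.fromBlocks_multiply, Jm_L, Jm_L, e1, e1]
        simp
      rw [e, Matrix.det_mul, ih, Matrix.det_fromBlocks_zero₂₁]
      simp
    | true =>
      have e1 : ∀ j, Jm (true :: V) m false j = Jm V m false j := fun j => rfl
      have e : Matrix.fromBlocks (Jm (true :: V) m false false) (Jm (true :: V) m false true)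
          (Jm (true :: V) m true false) (Jm (true :: V) m true true) =
          Matrix.fromBlocks 1 0 (m (al V ga)) 1 *
            Matrix.fromBlocks (Jm V m false false) (Jm V m false true) (Jm V m true false)
              (Jm V m true true) := by
        rw [Matrix.fromBlocks_multiply, Jm_R, Jm_R, e1, e1]
        simp [add_comm]
      rw [e, Matrix.det_mul, ih, Matrix.det_fromBlocks_zero₁₂]
      simp

theorem op_det {K : Type} [Field K] (V : List Bool) (m : F →* Matrix (Fin 2) (Fin 2) K)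
    (T : Matrix (Fin 2) (Fin 2) K) : LinearMap.det (opU V m T) = T.det * T.det := by
  rw [od_det (opU V m T) (T * Jm V m false false) (T * Jm V m false true)
    (T * Jm V m true false) (T * Jm V m true true)]
  · have e : Matrix.fromBlocks (T * Jm V m false false) (T * Jm V m false true)
        (T * Jm V m true false) (T * Jm V m true true) =
        Matrix.fromBlocks T 0 0 T * Matrix.fromBlocks (Jm V m false false) (Jm V m false true)
          (Jm V m true false) (Jm V m true true) := by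
      rw [Matrix.fromBlocks_multiply]
      simp
    rw [e, Matrix.det_mul, od_J, Matrix.det_fromBlocks_zero₂₁, mul_one]
  · intro v
    show (T.mulVec ((Jm V m false false).mulVec v.1 + (Jm V m false true).mulVec v.2),
      T.mulVec ((Jm V m true false).mulVec v.1 + (Jm V m true true).mulVec v.2)) = _
    rw [Matrix.mulVec_add, Matrix.mulVec_add, Matrix.mulVec_mulVec, Matrix.mulVec_mulVec,
      Matrix.mulVec_mulVec, Matrix.mulVec_mulVec]



private theorem ot_tr {K : Type} [Field K] (A : Matrix (Fin 2) (Fin 2) K) :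
    LinearMap.trace K _ (Matrix.mulVecLin A) = A.trace := by
  rw [← Matrix.toLin'_apply']
  exact Matrix.trace_toLin'_eq A

private theorem ot_sum {K : Type} [Field K] (m : F →* Matrix (Fin 2) (Fin 2) K)
    (T : Matrix (Fin 2) (Fin 2) K) (l : List F) :
    (T * (l.map m).sum).trace = (l.map fun w => (T * m w).trace).sum := by
  induction l with
  | nil => simp
  | cons a l ih => simp only [List.map_cons, List.sum_cons, Matrix.mul_add, Matrix.trace_add, ih]

theorem op_tr {K : Type} [Field K] (V : List Bool) (m : F →* Matrix (Fin 2) (Fin 2) K)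
    (T : Matrix (Fin 2) (Fin 2) K) :
    LinearMap.trace K _ (opU V m T) = ((oT V).map fun w => (T * m w).trace).sum := by
  set A := Matrix.mulVecLin (T * Jm V m false false)
  set B := Matrix.mulVecLin (T * Jm V m false true)
  set C := Matrix.mulVecLin (T * Jm V m true false)
  set D := Matrix.mulVecLin (T * Jm V m true true)
  have h : opU V m T =
      (LinearMap.inl K (Fin 2 → K) (Fin 2 → K) ∘ₗ (A ∘ₗ LinearMap.fst K (Fin 2 → K) (Fin 2 → K)) +
        LinearMap.inl K (Fin 2 → K) (Fin 2 → K) ∘ₗ (B ∘ₗ LinearMap.snd K (Fin 2 → K) (Fin 2 → K))) +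
      (LinearMap.inr K (Fin 2 → K) (Fin 2 → K) ∘ₗ (C ∘ₗ LinearMap.fst K (Fin 2 → K) (Fin 2 → K)) +
        LinearMap.inr K (Fin 2 → K) (Fin 2 → K) ∘ₗ
          (D ∘ₗ LinearMap.snd K (Fin 2 → K) (Fin 2 → K))) := by
    apply LinearMap.ext
    rintro ⟨p, q⟩
    simp only [opU, LinearMap.coe_mk, AddHom.coe_mk, LinearMap.add_apply, LinearMap.comp_apply,
      LinearMap.fst_apply, LinearMap.snd_apply, LinearMap.inl_apply, LinearMap.inr_apply,
      Prod.mk_add_mk, A, B, C, D, Matrix.mulVecLin_apply, add_zero, zero_add, Matrix.mulVec_add,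
      Matrix.mulVec_mulVec]
  have e1 : (A ∘ₗ LinearMap.fst K (Fin 2 → K) (Fin 2 → K)) ∘ₗ
      LinearMap.inl K (Fin 2 → K) (Fin 2 → K) = A := by
    rw [LinearMap.comp_assoc, LinearMap.fst_comp_inl, LinearMap.comp_id]
  have e2 : (B ∘ₗ LinearMap.snd K (Fin 2 → K) (Fin 2 → K)) ∘ₗ
      LinearMap.inl K (Fin 2 → K) (Fin 2 → K) = 0 := by
    rw [LinearMap.comp_assoc, LinearMap.snd_comp_inl, LinearMap.comp_zero]
  have e3 : (C ∘ₗ LinearMap.fst K (Fin 2 → K) (Fin 2 → K)) ∘ₗ
      LinearMap.inr K (Fin 2 → K) (Fin 2 → K) = 0 := by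
    rw [LinearMap.comp_assoc, LinearMap.fst_comp_inr, LinearMap.comp_zero]
  have e4 : (D ∘ₗ LinearMap.snd K (Fin 2 → K) (Fin 2 → K)) ∘ₗ
      LinearMap.inr K (Fin 2 → K) (Fin 2 → K) = D := by
    rw [LinearMap.comp_assoc, LinearMap.snd_comp_inr, LinearMap.comp_id]
  rw [h, map_add, map_add, map_add,
    LinearMap.trace_comp_comm' (A ∘ₗ LinearMap.fst K (Fin 2 → K) (Fin 2 → K))
      (LinearMap.inl K (Fin 2 → K) (Fin 2 → K)), e1,
    LinearMap.trace_comp_comm' (B ∘ₗ LinearMap.snd K (Fin 2 → K) (Fin 2 → K))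
      (LinearMap.inl K (Fin 2 → K) (Fin 2 → K)), e2,
    LinearMap.trace_comp_comm' (C ∘ₗ LinearMap.fst K (Fin 2 → K) (Fin 2 → K))
      (LinearMap.inr K (Fin 2 → K) (Fin 2 → K)), e3,
    LinearMap.trace_comp_comm' (D ∘ₗ LinearMap.snd K (Fin 2 → K) (Fin 2 → K))
      (LinearMap.inr K (Fin 2 → K) (Fin 2 → K)), e4, map_zero, add_zero, zero_add]
  simp only [A, D]
  rw [ot_tr, ot_tr]
  unfold Jm oT
  rw [ot_sum, ot_sum, List.map_append, List.sum_append]





/-- the coboundary of `y` -/
private def n1a_cob {G K : Type} [Group G] [CommRing K] (ρ : G →* SL2 K) (σ : G →* Kˣ)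
    (y : Fin 2 → K) : G →* Q2 K where
  toFun g := ⟨σ g, ρ g, y - (σ g).val • (ρ g).val.mulVec y⟩
  map_one' := by
    apply Q2.ext
    · simp
    · simp
    · simp
  map_mul' g h := by
    apply Q2.ext
    · simp
    · simp
    · simp only [Q2.mul_v, map_mul, Units.val_mul, Matrix.SpecialLinearGroup.coe_mul,
        Matrix.mulVec_sub, Matrix.mulVec_smul, smul_sub, smul_smul, Matrix.mulVec_mulVec]
      abel

private theorem n1a_ext {G : Type} [Group G] {f g : F →* G} (hx : f x0 = g x0)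
    (hu : f ga = g ga) : f = g := by
  apply hom_ext hu
  have h : gb = ga * x0⁻¹ := by unfold x0; group
  rw [h, map_mul, map_mul, map_inv, map_inv, hx, hu]

private theorem n1a_sum {K : Type} [CommRing K] (l : List F)
    (m : F → Matrix (Fin 2) (Fin 2) K) (y : Fin 2 → K) :
    (l.map fun w => (m w).mulVec y).sum = (l.map m).sum.mulVec y := by
  induction l with
  | nil => simp
  | cons a l ih => simp only [List.map_cons, List.sum_cons, ih, Matrix.add_mulVec]

private theorem n1a_trace_inv {K : Type} [CommRing K] (T : SL2 K) : (T⁻¹).val.trace = T.val.trace := by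
  rw [Matrix.SpecialLinearGroup.coe_inv, Matrix.trace_fin_two, Matrix.adjugate_fin_two,
    Matrix.trace_fin_two]
  simp
  ring

private theorem n1a_det {K : Type} [Field K] (A : SL2 K) :
    (A.val - 1).det = 2 - tr A := by
  have h := A.2
  rw [Matrix.det_fin_two] at h
  rw [Matrix.det_fin_two, tr_eq]
  simp
  linear_combination h

/-- from an affine representation to the quadratic equation -/
theorem n1a {K : Type} [Field K] (V : List Bool) (ρ : GA (al V) →* SL2 K)
    (σ : GA (al V) →* Kˣ) (hirr : Irr (ρ.comp (iA (al V)))) (hex : Ex1 ρ σ) :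
    (σ (tA (al V))).val * (σ (tA (al V))).val - sT V ρ σ * (σ (tA (al V))).val + 1 = 0 := by
  have hlin := p_lin p_trq
  obtain ⟨Θ, hm, ht, hnc⟩ := hex
  have hΘm : ∀ g, (Θ g).m = ρ g := fun g => DFunLike.congr_fun hm g
  have hΘt : ∀ g, (Θ g).t = σ g := fun g => DFunLike.congr_fun ht g
  obtain ⟨g, h, hgh⟩ := hirr
  set k : F := g * h * g⁻¹ * h⁻¹ with hk
  have hk1 : σ (iA (al V) k) = 1 := by
    rw [hk]; simp only [map_mul, map_inv]
    rw [mul_comm (σ (iA (al V) g)) (σ (iA (al V) h))]; group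
  have hk2 : tr (ρ (iA (al V) k)) ≠ 2 := hgh
  have hk3 : (Q2.X (Θ (iA (al V) k))).det ≠ 0 := by
    unfold Q2.X
    rw [hΘm, hΘt, hk1, Units.val_one, one_smul, n1a_det]
    exact fun h => hk2 (sub_eq_zero.1 h).symm
  -- the representation on `F`
  let ρF : F →* SL2 K := ρ.comp (iA (al V))
  let σF : F →* Kˣ := σ.comp (iA (al V))
  let m : F →* Matrix (Fin 2) (Fin 2) K :=
    { toFun := fun w => (σF w).val • (ρF w).val
      map_one' := by simp
      map_mul' := fun a b => by
        simp only [map_mul, Units.val_mul, Matrix.SpecialLinearGroup.coe_mul, Matrix.smul_mul,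
          Matrix.mul_smul, smul_smul]
        rw [mul_comm (σF b).val] }
  have hmdef : ∀ w, m w = (σF w).val • (ρF w).val := fun w => rfl
  set T : SL2 K := ρ (tA (al V)) with hT
  set τ : Kˣ := σ (tA (al V)) with hτ
  let δ : (Fin 2 → K) →ₗ[K] E2 K :=
    { toFun := fun y => (y - (m x0).mulVec y, y - (m ga).mulVec y)
      map_add' := fun y z => by
        simp only [Matrix.mulVec_add, Prod.mk_add_mk, Prod.mk.injEq]
        constructor <;> abel
      map_smul' := fun r y => by
        simp only [Matrix.mulVec_smul, RingHom.id_apply, Prod.smul_mk, smul_sub] }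
  have hδ : ∀ y, δ y = (y - (m x0).mulVec y, y - (m ga).mulVec y) := fun y => rfl
  -- values of coboundaries
  have hcobv : ∀ y w, (n1a_cob ρF σF y w).v = y - (m w).mulVec y := by
    intro y w
    show y - (σF w).val • (ρF w).val.mulVec y = _
    rw [hmdef, Matrix.smul_mulVec]
  -- conjugation by `t`
  have hphiρ : ∀ w, (ρF ((al V) w)) = T * ρF w * T⁻¹ := by
    intro w
    show ρ (iA (al V) ((al V) w)) = _
    rw [← tA_conj, map_mul, map_mul, map_inv]; rfl
  have hphiσ : ∀ w, (σF ((al V) w)) = σF w := by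
    intro w
    show σ (iA (al V) ((al V) w)) = _
    rw [← tA_conj, map_mul, map_mul, map_inv, mul_comm (σ (tA (al V))), mul_inv_cancel_right]; rfl
  have hphim : ∀ w, (T⁻¹).val * m ((al V) w) = m w * (T⁻¹).val := by
    intro w
    rw [hmdef, hmdef, hphiρ, hphiσ, Matrix.mul_smul, Matrix.smul_mul,
      ← Matrix.SpecialLinearGroup.coe_mul, ← Matrix.SpecialLinearGroup.coe_mul]
    congr 2
    group
  -- Fox formula
  have hfox : ∀ (f : F →* Q2 K), (∀ w, (f w).m = ρF w) → (∀ w, (f w).t = σF w) → ∀ i,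
      (f ((al V) (lt i))).v = (Jm V m i false).mulVec (f x0).v +
        (Jm V m i true).mulVec (f ga).v := by
    intro f h1 h2 i
    rw [ocv f V i]
    unfold Jm
    rw [← n1a_sum, ← n1a_sum]
    simp only [h1, h2, hmdef, Matrix.smul_mulVec]
  have hUdef : ∀ c : E2 K, opU V m (T⁻¹).val c =
      ((T⁻¹).val.mulVec ((Jm V m false false).mulVec c.1 + (Jm V m false true).mulVec c.2),
       (T⁻¹).val.mulVec ((Jm V m true false).mulVec c.1 + (Jm V m true true).mulVec c.2)) :=
    fun c => rfl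
  have hUf : ∀ (f : F →* Q2 K), (∀ w, (f w).m = ρF w) → (∀ w, (f w).t = σF w) →
      opU V m (T⁻¹).val ((f x0).v, (f ga).v) =
        ((T⁻¹).val.mulVec (f ((al V) x0)).v, (T⁻¹).val.mulVec (f ((al V) ga)).v) := by
    intro f h1 h2
    rw [hUdef]
    show ((T⁻¹).val.mulVec ((Jm V m false false).mulVec (f x0).v +
      (Jm V m false true).mulVec (f ga).v), (T⁻¹).val.mulVec ((Jm V m true false).mulVec (f x0).v +
      (Jm V m true true).mulVec (f ga).v)) = _
    rw [← hfox f h1 h2 false, ← hfox f h1 h2 true]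
    rfl
  have hUδ : ∀ y, opU V m (T⁻¹).val (δ y) = δ ((T⁻¹).val.mulVec y) := by
    intro y
    have h1 := hUf (n1a_cob ρF σF y) (fun w => rfl) (fun w => rfl)
    rw [hcobv, hcobv, hcobv, hcobv] at h1
    rw [hδ, h1, hδ]
    simp only [Matrix.mulVec_sub, Matrix.mulVec_mulVec, hphim]
  -- the cocycle of `Θ`
  have hv : ∀ w, (T⁻¹).val.mulVec (Θ (iA (al V) ((al V) w))).v =
      τ.val • (Θ (iA (al V) w)).v + ((T⁻¹).val.mulVec (Θ (tA (al V))).v -
        (m w).mulVec ((T⁻¹).val.mulVec (Θ (tA (al V))).v)) := by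
    intro w
    have h1 : tA (al V) * iA (al V) w = iA (al V) ((al V) w) * tA (al V) := by
      rw [← tA_conj]; group
    have h2 := congrArg (fun g => (Θ g).v) h1
    simp only [map_mul, Q2.mul_v, hΘm, hΘt] at h2
    have h3 : (Θ (iA (al V) ((al V) w))).v = (Θ (tA (al V))).v + τ.val • T.val.mulVec (Θ (iA (al V) w)).v
        - (m ((al V) w)).mulVec (Θ (tA (al V))).v := by
      rw [h2, hmdef, Matrix.smul_mulVec]
      exact (add_sub_cancel_right _ _).symm
    rw [h3, Matrix.mulVec_sub, Matrix.mulVec_add, Matrix.mulVec_smul, Matrix.mulVec_mulVec,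
      Matrix.mulVec_mulVec, hphim, ← Matrix.SpecialLinearGroup.coe_mul, inv_mul_cancel,
      Matrix.SpecialLinearGroup.coe_one, Matrix.one_mulVec, ← Matrix.mulVec_mulVec]
    abel
  set c : E2 K := ((Θ (iA (al V) x0)).v, (Θ (iA (al V) ga)).v) with hc
  have hUc : opU V m (T⁻¹).val c = τ.val • c + δ ((T⁻¹).val.mulVec (Θ (tA (al V))).v) := by
    have h1 := hUf (Θ.comp (iA (al V))) (fun w => hΘm _) (fun w => hΘt _)
    rw [hc]
    refine h1.trans ?_
    show ((T⁻¹).val.mulVec (Θ (iA (al V) ((al V) x0))).v,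
      (T⁻¹).val.mulVec (Θ (iA (al V) ((al V) ga))).v) = _
    rw [hv, hv, hδ]
    rfl
  have hδinj : Function.Injective δ := by
    rw [injective_iff_map_eq_zero]
    intro y hy
    rw [hδ, Prod.mk_eq_zero] at hy
    have h1 : n1a_cob ρF σF y = n1a_cob ρF σF 0 := by
      apply n1a_ext
      · apply Q2.ext
        · rfl
        · rfl
        · rw [hcobv, hcobv, hy.1]; simp
      · apply Q2.ext
        · rfl
        · rfl
        · rw [hcobv, hcobv, hy.2]; simp
    have h2 := congrArg (fun f => (f k).v) h1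
    simp only [hcobv, Matrix.mulVec_zero, sub_zero] at h2
    have h3 : (m k - 1).mulVec y = 0 := by
      rw [Matrix.sub_mulVec, Matrix.one_mulVec, ← neg_sub, h2, neg_zero]
    have h4 : (m k - 1).det ≠ 0 := by
      rw [hmdef]
      have : Q2.X (Θ (iA (al V) k)) = (σF k).val • (ρF k).val - 1 := by
        unfold Q2.X
        rw [hΘm, hΘt]; rfl
      rw [← this]; exact hk3
    by_contra hne
    exact h4 (Matrix.exists_mulVec_eq_zero_iff.1 ⟨y, hne, h3⟩)
  have hcnot : c ∉ LinearMap.range δ := by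
    rintro ⟨y, hy⟩
    have h0 : Θ.comp (iA (al V)) = n1a_cob ρF σF y := by
      rw [hδ, hc, Prod.mk.injEq] at hy
      apply n1a_ext
      · apply Q2.ext
        · exact hΘt _
        · exact hΘm _
        · rw [hcobv]; exact hy.1.symm
      · apply Q2.ext
        · exact hΘt _
        · exact hΘm _
        · rw [hcobv]; exact hy.2.symm
    have h1 : δ ((T⁻¹).val.mulVec y - τ.val • y - (T⁻¹).val.mulVec (Θ (tA (al V))).v) = 0 := by
      rw [map_sub, map_sub, ← hUδ, hy, hUc, map_smul, hy]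
      abel
    have h2 : (T⁻¹).val.mulVec y - τ.val • y - (T⁻¹).val.mulVec (Θ (tA (al V))).v = 0 :=
      hδinj (by rw [h1, map_zero])
    have h3 : (Θ (tA (al V))).v = y - τ.val • T.val.mulVec y := by
      have h4 := congrArg (fun z => T.val.mulVec z) h2
      simp only [Matrix.mulVec_sub, Matrix.mulVec_smul, Matrix.mulVec_mulVec,
        ← Matrix.SpecialLinearGroup.coe_mul, mul_inv_cancel, Matrix.SpecialLinearGroup.coe_one,
        Matrix.one_mulVec, Matrix.mulVec_zero] at h4
      rw [sub_eq_zero] at h4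
      exact h4.symm
    have h5 : Θ = n1a_cob ρ σ y := by
      apply homA_ext
      · intro w
        exact DFunLike.congr_fun h0 w
      · apply Q2.ext
        · exact hΘt _
        · exact hΘm _
        · exact h3
    refine ((p_ncb K (GA (al V)) Θ (iA (al V) k) hk3).1 hnc) ⟨y, fun g => ?_⟩
    have h6 : (Θ g).v = y - (σ g).val • (ρ g).val.mulVec y := by
      conv_lhs => rw [h5]
      rfl
    rw [h6]
    unfold Q2.X
    rw [hΘt, hΘm, Matrix.sub_mulVec, Matrix.smul_mulVec, Matrix.one_mulVec, neg_sub]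
  have hmain := (hlin K (opU V m (T⁻¹).val) δ (T⁻¹).val hδinj hUδ (T⁻¹).2
    (by rw [op_det]; rw [(T⁻¹).2, one_mul]) τ.val).1 ⟨c, hcnot, ⟨(T⁻¹).val.mulVec (Θ (tA (al V))).v, by
      rw [hUc]; abel⟩⟩
  rw [op_tr] at hmain
  have hsT : sT V ρ σ = ((oT V).map fun w => ((T⁻¹).val * m w).trace).sum - (T⁻¹).val.trace := by
    unfold sT
    rw [n1a_trace_inv]
    congr 2
    apply List.map_congr_left
    intro w _
    rw [hmdef, Matrix.mul_smul, Matrix.trace_smul, smul_eq_mul, map_mul, map_inv]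
    rfl
  rw [hsT]
  exact hmain





section n1b

variable {K : Type} [Field K] {V : List Bool} (ρ : GA (al V) →* SL2 K) (σ : GA (al V) →* Kˣ)

/-- `w ↦ σ(w) ρ(w)` -/
def n1b_m : F →* Matrix (Fin 2) (Fin 2) K where
  toFun w := (σ (iA (al V) w)).val • (ρ (iA (al V) w)).val
  map_one' := by simp
  map_mul' x y := by
    rw [map_mul, map_mul, map_mul, Units.val_mul, Matrix.SpecialLinearGroup.coe_mul,
      smul_mul_smul_comm]

/-- `w ↦ (σ(w), ρ(w), 0)` -/
def n1b_sr : F →* Q2 K where
  toFun w := ⟨σ (iA (al V) w), ρ (iA (al V) w), 0⟩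
  map_one' := by
    apply Q2.ext <;> simp
  map_mul' x y := by
    apply Q2.ext <;> simp

/-- its conjugate by the translation with `y` -/
def n1b_c (y : Fin 2 → K) : F →* Q2 K :=
  (MulAut.conj (⟨1, 1, y⟩ : Q2 K)).toMonoidHom.comp (n1b_sr ρ σ)

theorem n1b_c_t (y : Fin 2 → K) (w : F) : (n1b_c ρ σ y w).t = σ (iA (al V) w) := by
  show ((⟨1, 1, y⟩ : Q2 K) * ⟨σ (iA (al V) w), ρ (iA (al V) w), 0⟩ * (⟨1, 1, y⟩ : Q2 K)⁻¹).t = _
  simp

theorem n1b_c_m (y : Fin 2 → K) (w : F) : (n1b_c ρ σ y w).m = ρ (iA (al V) w) := by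
  show ((⟨1, 1, y⟩ : Q2 K) * ⟨σ (iA (al V) w), ρ (iA (al V) w), 0⟩ * (⟨1, 1, y⟩ : Q2 K)⁻¹).m = _
  simp

theorem n1b_c_v (y : Fin 2 → K) (w : F) :
    (n1b_c ρ σ y w).v = y - (n1b_m ρ σ w).mulVec y := by
  show ((⟨1, 1, y⟩ : Q2 K) * ⟨σ (iA (al V) w), ρ (iA (al V) w), 0⟩ * (⟨1, 1, y⟩ : Q2 K)⁻¹).v =
    y - ((σ (iA (al V) w)).val • (ρ (iA (al V) w)).val).mulVec y
  rw [Matrix.smul_mulVec]
  simp only [Q2.mul_v, Q2.mul_t, Q2.mul_m, Q2.inv_v, inv_one, one_mul, Units.val_one, one_smul,
    Matrix.SpecialLinearGroup.coe_one, Matrix.one_mulVec, Matrix.mulVec_neg, smul_neg, add_zero]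
  rw [sub_eq_add_neg]

/-- the coboundaries -/
def n1b_del : (Fin 2 → K) →ₗ[K] E2 K :=
  LinearMap.prod (LinearMap.id - (n1b_m ρ σ x0).mulVecLin) (LinearMap.id - (n1b_m ρ σ ga).mulVecLin)

theorem n1b_del_apply (y : Fin 2 → K) :
    n1b_del ρ σ y = (y - (n1b_m ρ σ x0).mulVec y, y - (n1b_m ρ σ ga).mulVec y) := rfl

theorem n1b_gb : (gb : F) = ga * x0⁻¹ := by unfold x0; group

/-- homomorphisms on `F` agreeing on `x0` and `ga` -/
theorem n1b_ext {Q : Type} [Group Q] {f g : F →* Q} (h0 : f x0 = g x0) (h1 : f ga = g ga) :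
    f = g := by
  apply hom_ext h1
  rw [n1b_gb, map_mul, map_mul, map_inv, map_inv, h0, h1]

theorem n1b_det (A : SL2 K) : (A.val - 1).det = 2 - tr A := by
  have h := A.2
  rw [Matrix.det_fin_two] at h
  rw [tr_eq, Matrix.det_fin_two]
  simp only [Matrix.sub_apply, Matrix.one_apply_eq]
  have h01 : (1 : Matrix (Fin 2) (Fin 2) K) 0 1 = 0 := by simp
  have h10 : (1 : Matrix (Fin 2) (Fin 2) K) 1 0 = 0 := by simp
  rw [h01, h10]
  linear_combination h

/-- a commutator `k` with `tr ρ(k) ≠ 2` -/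
theorem n1b_k (h : Irr (ρ.comp (iA (al V)))) : ∃ k : F, σ (iA (al V) k) = 1 ∧
    ((ρ (iA (al V) k)).val - 1).det ≠ 0 := by
  obtain ⟨g, h', hgh⟩ := h
  refine ⟨g * h' * g⁻¹ * h'⁻¹, ?_, ?_⟩
  · simp only [map_mul, map_inv]
    rw [mul_comm (σ (iA (al V) g)) (σ (iA (al V) h'))]; group
  · rw [n1b_det]
    intro h0
    apply hgh
    rw [MonoidHom.comp_apply]
    exact (sub_eq_zero.1 h0).symm

theorem n1b_inj (h : Irr (ρ.comp (iA (al V)))) : Function.Injective (n1b_del ρ σ) := by
  rw [injective_iff_map_eq_zero]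
  intro y hy
  rw [n1b_del_apply, Prod.mk_eq_zero] at hy
  have h1 : n1b_c ρ σ y = n1b_sr ρ σ := by
    apply n1b_ext
    · apply Q2.ext
      · exact n1b_c_t ρ σ y x0
      · exact n1b_c_m ρ σ y x0
      · rw [n1b_c_v]; exact hy.1
    · apply Q2.ext
      · exact n1b_c_t ρ σ y ga
      · exact n1b_c_m ρ σ y ga
      · rw [n1b_c_v]; exact hy.2
  obtain ⟨k, hk1, hk2⟩ := n1b_k ρ σ h
  have h2 : y - (n1b_m ρ σ k).mulVec y = 0 := by
    rw [← n1b_c_v, h1]; rfl
  have h3 : ((ρ (iA (al V) k)).val - 1).mulVec y = 0 := by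
    have h4 : n1b_m ρ σ k = (ρ (iA (al V) k)).val := by
      show (σ (iA (al V) k)).val • (ρ (iA (al V) k)).val = _
      rw [hk1]; simp
    rw [h4] at h2
    rw [Matrix.sub_mulVec, Matrix.one_mulVec]
    rw [← neg_sub, h2, neg_zero]
  by_contra hy0
  exact hk2 (Matrix.exists_mulVec_eq_zero_iff.1 ⟨y, hy0, h3⟩)

theorem n1b_list (f : F →* Q2 K) (hf : ∀ w, n1b_m ρ σ w = (f w).t.val • (f w).m.val)
    (v : Fin 2 → K) (l : List F) :
    (l.map fun w => (f w).t.val • (f w).m.val.mulVec v).sum =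
      ((l.map (n1b_m ρ σ)).sum).mulVec v := by
  induction l with
  | nil => simp
  | cons a l ih =>
    rw [List.map_cons, List.map_cons, List.sum_cons, List.sum_cons, ih, Matrix.add_mulVec, hf a,
      Matrix.smul_mulVec]

theorem n1b_op (f : F →* Q2 K)
    (hf : ∀ w, n1b_m ρ σ w = (f w).t.val • (f w).m.val) (T : Matrix (Fin 2) (Fin 2) K) :
    opU V (n1b_m ρ σ) T ((f x0).v, (f ga).v) =
      (T.mulVec (f ((al V) x0)).v, T.mulVec (f ((al V) ga)).v) := by
  have h0 := ocv f V false
  have h1 := ocv f V true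
  rw [n1b_list ρ σ f hf, n1b_list ρ σ f hf] at h0 h1
  show (T.mulVec ((Jm V (n1b_m ρ σ) false false).mulVec (f x0).v +
      (Jm V (n1b_m ρ σ) false true).mulVec (f ga).v),
    T.mulVec ((Jm V (n1b_m ρ σ) true false).mulVec (f x0).v +
      (Jm V (n1b_m ρ σ) true true).mulVec (f ga).v)) = _
  unfold Jm
  rw [← h0, ← h1]
  rfl

theorem n1b_rho_conj (w : F) :
    ρ (iA (al V) ((al V) w)) = ρ (tA (al V)) * ρ (iA (al V) w) * (ρ (tA (al V)))⁻¹ := by
  rw [← tA_conj, map_mul, map_mul, map_inv]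

theorem n1b_sig_conj (w : F) : σ (iA (al V) ((al V) w)) = σ (iA (al V) w) := by
  rw [← tA_conj, map_mul, map_mul, map_inv, mul_comm (σ (tA (al V))), mul_inv_cancel_right]

theorem n1b_m_conj (w : F) : ((ρ (tA (al V)))⁻¹).val * n1b_m ρ σ ((al V) w) =
    n1b_m ρ σ w * ((ρ (tA (al V)))⁻¹).val := by
  show ((ρ (tA (al V)))⁻¹).val * ((σ (iA (al V) ((al V) w))).val • (ρ (iA (al V) ((al V) w))).val) =
    ((σ (iA (al V) w)).val • (ρ (iA (al V) w)).val) * ((ρ (tA (al V)))⁻¹).val
  rw [n1b_sig_conj, n1b_rho_conj, mul_smul_comm, smul_mul_assoc, ← Matrix.SpecialLinearGroup.coe_mul,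
    ← Matrix.SpecialLinearGroup.coe_mul]
  have h : (ρ (tA (al V)))⁻¹ * (ρ (tA (al V)) * ρ (iA (al V) w) * (ρ (tA (al V)))⁻¹) =
      ρ (iA (al V) w) * (ρ (tA (al V)))⁻¹ := by group
  rw [h]

/-- the operator on the coboundaries -/
theorem n1b_op_del (y : Fin 2 → K) :
    opU V (n1b_m ρ σ) ((ρ (tA (al V)))⁻¹).val (n1b_del ρ σ y) =
      n1b_del ρ σ (((ρ (tA (al V)))⁻¹).val.mulVec y) := by
  have hf : ∀ w, n1b_m ρ σ w = (n1b_c ρ σ y w).t.val • (n1b_c ρ σ y w).m.val := by
    intro w
    rw [n1b_c_t, n1b_c_m]; rfl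
  have h := n1b_op ρ σ (n1b_c ρ σ y) hf ((ρ (tA (al V)))⁻¹).val
  rw [n1b_c_v, n1b_c_v, n1b_c_v, n1b_c_v] at h
  rw [n1b_del_apply, n1b_del_apply, h]
  rw [Matrix.mulVec_sub, Matrix.mulVec_sub, Matrix.mulVec_mulVec, Matrix.mulVec_mulVec,
    Matrix.mulVec_mulVec, Matrix.mulVec_mulVec, n1b_m_conj, n1b_m_conj]

/-- the trace of the operator -/
theorem n1b_trace :
    LinearMap.trace K _ (opU V (n1b_m ρ σ) ((ρ (tA (al V)))⁻¹).val) - ((ρ (tA (al V)))⁻¹).val.trace =
      sT V ρ σ := by
  rw [op_tr]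
  unfold sT
  congr 1
  · congr 1
    apply List.map_congr_left
    intro w _
    show (((ρ (tA (al V)))⁻¹).val * ((σ (iA (al V) w)).val • (ρ (iA (al V) w)).val)).trace = _
    rw [mul_smul_comm, Matrix.trace_smul, smul_eq_mul, map_mul ρ, map_inv ρ]
    rfl
  · rw [tr_eq, Matrix.trace_fin_two, Matrix.SpecialLinearGroup.coe_inv, Matrix.adjugate_fin_two]
    simp [add_comm]

theorem n1b_detU :
    LinearMap.det (opU V (n1b_m ρ σ) ((ρ (tA (al V)))⁻¹).val) = 1 := by
  rw [op_det, ((ρ (tA (al V)))⁻¹).2, one_mul]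

/-- the criterion -/
theorem n1b_crit
    (h : Irr (ρ.comp (iA (al V)))) (τ : K) :
    (∃ c, c ∉ LinearMap.range (n1b_del ρ σ) ∧
      opU V (n1b_m ρ σ) ((ρ (tA (al V)))⁻¹).val c - τ • c ∈ LinearMap.range (n1b_del ρ σ)) ↔
    τ * τ - sT V ρ σ * τ + 1 = 0 := by
  have h1 := p_lin p_trq K (opU V (n1b_m ρ σ) ((ρ (tA (al V)))⁻¹).val) (n1b_del ρ σ) ((ρ (tA (al V)))⁻¹).val
    (n1b_inj ρ σ h) (n1b_op_del ρ σ) ((ρ (tA (al V)))⁻¹).2 (n1b_detU ρ σ) τ
  rw [n1b_trace ρ σ] at h1
  exact h1

end n1b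

/-- the converse -/
theorem n1b {K : Type} [Field K] (V : List Bool) (ρ : GA (al V) →* SL2 K)
    (σ : GA (al V) →* Kˣ) (hirr : Irr (ρ.comp (iA (al V))))
    (heq : (σ (tA (al V))).val * (σ (tA (al V))).val - sT V ρ σ * (σ (tA (al V))).val + 1 = 0) :
    Ex1 ρ σ := by
  obtain ⟨c, hc, hU⟩ := (n1b_crit ρ σ hirr (σ (tA (al V))).val).2 heq
  obtain ⟨p, q⟩ := c
  obtain ⟨y', hy'⟩ := hU
  -- the homomorphism on `F`
  let A0 : Q2 K := ⟨σ (iA (al V) x0), ρ (iA (al V) x0), p⟩
  let A1 : Q2 K := ⟨σ (iA (al V) ga), ρ (iA (al V) ga), q⟩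
  obtain ⟨f, hf⟩ : ∃ f : F →* Q2 K, f = liF A1 (A1 * A0⁻¹) := ⟨_, rfl⟩
  have hfga : f ga = A1 := by rw [hf, liF_ga]
  have hfx0 : f x0 = A0 := by
    unfold x0
    rw [map_mul, map_inv, hf, liF_ga, liF_gb]; group
  have hft : Q2.tH.comp f = σ.comp (iA (al V)) := by
    apply n1b_ext
    · rw [MonoidHom.comp_apply, hfx0]; rfl
    · rw [MonoidHom.comp_apply, hfga]; rfl
  have hfm : Q2.mH.comp f = ρ.comp (iA (al V)) := by
    apply n1b_ext
    · rw [MonoidHom.comp_apply, hfx0]; rfl
    · rw [MonoidHom.comp_apply, hfga]; rfl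
  have hft' : ∀ w, (f w).t = σ (iA (al V) w) := fun w => DFunLike.congr_fun hft w
  have hfm' : ∀ w, (f w).m = ρ (iA (al V) w) := fun w => DFunLike.congr_fun hfm w
  have hmm : ∀ w, n1b_m ρ σ w = (f w).t.val • (f w).m.val := by
    intro w
    rw [hft', hfm']; rfl
  -- the element `s`
  let s : Q2 K := ⟨σ (tA (al V)), ρ (tA (al V)), (ρ (tA (al V))).val.mulVec y'⟩
  have hTT : (ρ (tA (al V))).val * ((ρ (tA (al V)))⁻¹).val = 1 := by
    rw [← Matrix.SpecialLinearGroup.coe_mul, mul_inv_cancel]; rfl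
  have hTT' : ((ρ (tA (al V)))⁻¹).val * (ρ (tA (al V))).val = 1 := by
    rw [← Matrix.SpecialLinearGroup.coe_mul, inv_mul_cancel]; rfl
  have hop := n1b_op ρ σ f hmm ((ρ (tA (al V)))⁻¹).val
  have hpq : ((f x0).v, (f ga).v) = (p, q) := by rw [hfx0, hfga]
  rw [hpq] at hop
  rw [hop, n1b_del_apply] at hy'
  have hv : ∀ w : F, (w = x0 ∨ w = ga) → (f ((al V) w)).v =
      (σ (tA (al V))).val • (ρ (tA (al V))).val.mulVec (f w).v +
        (ρ (tA (al V))).val.mulVec (y' - (n1b_m ρ σ w).mulVec y') := by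
    intro w hw
    have key : ((ρ (tA (al V)))⁻¹).val.mulVec (f ((al V) w)).v =
        (σ (tA (al V))).val • (f w).v + (y' - (n1b_m ρ σ w).mulVec y') := by
      rcases hw with rfl | rfl
      · have h1 := congrArg Prod.fst hy'
        have h2 : (f x0).v = p := by rw [hfx0]
        rw [h2]
        have h3 : y' - (n1b_m ρ σ x0).mulVec y' =
          ((ρ (tA (al V)))⁻¹).val.mulVec (f ((al V) x0)).v - (σ (tA (al V))).val • p := h1
        rw [h3]; abel
      · have h1 := congrArg Prod.snd hy'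
        have h2 : (f ga).v = q := by rw [hfga]
        rw [h2]
        have h3 : y' - (n1b_m ρ σ ga).mulVec y' =
          ((ρ (tA (al V)))⁻¹).val.mulVec (f ((al V) ga)).v - (σ (tA (al V))).val • q := h1
        rw [h3]; abel
    have h4 := congrArg (fun v => (ρ (tA (al V))).val.mulVec v) key
    simp only [Matrix.mulVec_mulVec, hTT, Matrix.one_mulVec] at h4
    rw [h4, Matrix.mulVec_add, Matrix.mulVec_smul]
  have hs : ∀ w, f ((al V) w) = s * f w * s⁻¹ := by
    have h : f.comp (al V).toMonoidHom = (MulAut.conj s).toMonoidHom.comp f := by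
      have h1 : ∀ w : F, (w = x0 ∨ w = ga) → f ((al V) w) = s * f w * s⁻¹ := by
        intro w hw
        apply Q2.ext
        · rw [Q2.mul_t, Q2.mul_t, Q2.inv_t, hft', hft', n1b_sig_conj, mul_comm s.t,
            mul_inv_cancel_right]
        · rw [Q2.mul_m, Q2.mul_m, Q2.inv_m, hfm', hfm', n1b_rho_conj]
        · rw [hv w hw]
          simp only [Q2.mul_v, Q2.mul_t, Q2.mul_m, Q2.inv_v, Q2.inv_t, Q2.inv_m]
          rw [hft', hfm']
          show _ = (ρ (tA (al V))).val.mulVec y' + (σ (tA (al V))).val • (ρ (tA (al V))).val.mulVec (f w).v +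
            (σ (tA (al V)) * σ (iA (al V) w)).val • (ρ (tA (al V)) * ρ (iA (al V) w)).val.mulVec
              (-(((σ (tA (al V)))⁻¹).val • ((ρ (tA (al V)))⁻¹).val.mulVec
                ((ρ (tA (al V))).val.mulVec y')))
          have h2 : (σ (tA (al V)) * σ (iA (al V) w)).val • (ρ (tA (al V)) * ρ (iA (al V) w)).val.mulVec
              (-(((σ (tA (al V)))⁻¹).val • ((ρ (tA (al V)))⁻¹).val.mulVec
                ((ρ (tA (al V))).val.mulVec y'))) =
              -(ρ (tA (al V))).val.mulVec ((n1b_m ρ σ w).mulVec y') := by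
            have e1 : (n1b_m ρ σ w).mulVec y' =
                (σ (iA (al V) w)).val • (ρ (iA (al V) w)).val.mulVec y' := by
              show ((σ (iA (al V) w)).val • (ρ (iA (al V) w)).val).mulVec y' = _
              rw [Matrix.smul_mulVec]
            have e2 : (σ (tA (al V)) * σ (iA (al V) w)).val * ((σ (tA (al V)))⁻¹).val = (σ (iA (al V) w)).val := by
              rw [← Units.val_mul]
              congr 1
              rw [mul_comm (σ (tA (al V))), mul_inv_cancel_right]
            rw [e1, Matrix.mulVec_smul, Matrix.mulVec_mulVec y' ((ρ (tA (al V)))⁻¹).val, hTT',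
              Matrix.one_mulVec, Matrix.mulVec_neg, Matrix.mulVec_smul, smul_neg, smul_smul, e2,
              Matrix.SpecialLinearGroup.coe_mul, ← Matrix.mulVec_mulVec]
          rw [h2, Matrix.mulVec_sub]
          abel
      apply n1b_ext
      · exact h1 x0 (Or.inl rfl)
      · exact h1 ga (Or.inr rfl)
    exact fun w => DFunLike.congr_fun h w
  refine ⟨liftA f s hs, ?_, ?_, ?_⟩
  · apply homA_ext
    · intro w
      rw [MonoidHom.comp_apply, liftA_iA]
      exact hfm' w
    · rw [MonoidHom.comp_apply, liftA_tA]; rfl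
  · apply homA_ext
    · intro w
      rw [MonoidHom.comp_apply, liftA_iA]
      exact hft' w
    · rw [MonoidHom.comp_apply, liftA_tA]; rfl
  · obtain ⟨k, hk1, hk2⟩ := n1b_k ρ σ hirr
    have hX : (Q2.X (liftA f s hs (iA (al V) k))).det ≠ 0 := by
      unfold Q2.X
      rw [liftA_iA, hft', hfm', hk1, Units.val_one, one_smul]
      exact hk2
    rw [p_ncb K (GA (al V)) (liftA f s hs) (iA (al V) k) hX]
    rintro ⟨y, hy⟩
    apply hc
    refine ⟨y, ?_⟩
    rw [n1b_del_apply]
    have h0 := hy (iA (al V) x0)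
    have h1 := hy (iA (al V) ga)
    unfold Q2.X at h0 h1
    rw [liftA_iA, ← hmm, Matrix.sub_mulVec, Matrix.one_mulVec, neg_sub] at h0 h1
    rw [← h0, ← h1, hfx0, hfga]




/-- equal exceptional values give equal traces -/
theorem seq {K : Type} [Field K] (V : List Bool) (ρ ρ' : GA (al V) →* SL2 K)
    (χ : GA (al V) →* Kˣ) (τ : Kˣ) (hχ : χ (tA (al V)) = 1) (hi : Irr (ρ.comp (iA (al V))))
    (hi' : Irr (ρ'.comp (iA (al V)))) (hE : Ex1 ρ (χ * (pw τ).comp (nA (al V))))
    (hE' : Ex1 ρ' (χ * (pw τ).comp (nA (al V)))) : sT V ρ χ = sT V ρ' χ := by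
  have hs : ∀ r : GA (al V) →* SL2 K, sT V r (χ * (pw τ).comp (nA (al V))) = sT V r χ := by
    intro r
    unfold sT
    congr 3
    ext w
    rw [MonoidHom.mul_apply, MonoidHom.comp_apply, nA_iA, map_one, mul_one]
  have ht : (χ * (pw τ).comp (nA (al V))) (tA (al V)) = τ := by
    rw [MonoidHom.mul_apply, MonoidHom.comp_apply, nA_tA, hχ, one_mul]
    simp [pw]
  have h1 := n1a V ρ _ hi hE
  have h2 := n1a V ρ' _ hi' hE'
  rw [ht, hs] at h1 h2
  have h3 : (sT V ρ χ - sT V ρ' χ) * τ.val = 0 := by linear_combination h2 - h1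
  rcases mul_eq_zero.1 h3 with h | h
  · exact sub_eq_zero.1 h
  · exact absurd h τ.ne_zero




private lemma fou_filter {α M : Type} [AddCommMonoid M] (p : α → Bool) (g : α → M) (l : List α)
    (h : ∀ x ∈ l, p x = false → g x = 0) : (l.map g).sum = ((l.filter p).map g).sum := by
  induction l with
  | nil => rfl
  | cons a l ih =>
    have ih' := ih (fun x hx => h x (List.mem_cons_of_mem _ hx))
    rw [List.map_cons, List.sum_cons, ih']
    by_cases hp : p a = true
    · rw [List.filter_cons_of_pos hp, List.map_cons, List.sum_cons]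
    · rw [List.filter_cons_of_neg hp, h a List.mem_cons_self (by simpa using hp), zero_add]

private lemma fou_swap {α ι K : Type} [Field K] (s : Finset ι) (f : ι → α → K) (l : List α) :
    ∑ i ∈ s, (l.map (f i)).sum = (l.map fun x => ∑ i ∈ s, f i x).sum := by
  induction l with
  | nil => simp
  | cons a l ih =>
    simp only [List.map_cons, List.sum_cons]
    rw [Finset.sum_add_distrib, ih]

private lemma fou_sub {α K : Type} [Field K] (f g : α → K) (l : List α) :
    (l.map f).sum - (l.map g).sum = (l.map fun x => f x - g x).sum := by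
  induction l with
  | nil => simp
  | cons a l ih =>
    simp only [List.map_cons, List.sum_cons]
    rw [← ih]; ring

private lemma fou_mul {α K : Type} [Field K] (a : K) (f : α → K) (l : List α) :
    a * (l.map f).sum = (l.map fun x => a * f x).sum := by
  induction l with
  | nil => simp
  | cons b l ih =>
    simp only [List.map_cons, List.sum_cons]
    rw [← ih]; ring

open Classical in
/-- Fourier inversion -/
theorem fou {K : Type} [Field K] (V : List Bool) (hL : false ∈ V) (hR : true ∈ V) {c : ℕ}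
    (X : Fin c → (GA (al V) →* Kˣ)) (hX : Cpl (al V) X) (ρ ρ' : GA (al V) →* SL2 K)
    (hs : ∀ i, sT V ρ (X i) = sT V ρ' (X i)) (w : F) (hw : w ∈ oT V) (hcl : cl (al V) w ≠ 1) :
    tr (ρ (gl (al V) w)) = tr (ρ' (gl (al V) w)) := by
  obtain ⟨D, hD⟩ : ∃ D, D = tr (ρ (tA (al V))) - tr (ρ' (tA (al V))) := ⟨_, rfl⟩
  obtain ⟨d, hd⟩ : ∃ d : F → K, d = fun w' => tr (ρ ((tA (al V))⁻¹ * iA (al V) w')) -
    tr (ρ' ((tA (al V))⁻¹ * iA (al V) w')) := ⟨_, rfl⟩
  have h1 : ∀ i, ((oT V).map fun w' => (X i (iA (al V) w')).val * d w').sum = D := by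
    intro i
    have h2 := hs i
    unfold sT at h2
    have h3 : ((oT V).map fun w' => (X i (iA (al V) w')).val * tr (ρ ((tA (al V))⁻¹ * iA (al V) w'))).sum -
        ((oT V).map fun w' => (X i (iA (al V) w')).val * tr (ρ' ((tA (al V))⁻¹ * iA (al V) w'))).sum = D := by
      rw [hD]; linear_combination h2
    rw [fou_sub] at h3
    rw [← h3]
    congr 1
    apply List.map_congr_left
    intro w' _
    rw [hd]; ring
  -- sum over the characters
  have h4 : ∑ i, (X i (iA (al V) w⁻¹)).val * ((oT V).map fun w' => (X i (iA (al V) w')).val * d w').sum =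
      0 := by
    have : ∀ i, (X i (iA (al V) w⁻¹)).val * ((oT V).map fun w' => (X i (iA (al V) w')).val * d w').sum =
        (X i (iA (al V) w⁻¹)).val * D := fun i => by rw [h1 i]
    rw [Finset.sum_congr rfl (fun i _ => this i), ← Finset.sum_mul, hX.orth w⁻¹, zero_mul]
    rw [map_inv]
    exact fun h => hcl (inv_eq_one.1 h)
  have h5 : ((oT V).map fun w' => (∑ i, (X i (iA (al V) (w⁻¹ * w'))).val) * d w').sum = 0 := by
    rw [← h4]
    have h6 : ∀ i, (X i (iA (al V) w⁻¹)).val * ((oT V).map fun w' => (X i (iA (al V) w')).val * d w').sum =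
        ((oT V).map fun w' => (X i (iA (al V) (w⁻¹ * w'))).val * d w').sum := by
      intro i
      rw [fou_mul]
      congr 1
      apply List.map_congr_left
      intro w' _
      rw [map_mul (iA (al V)), map_mul (X i), Units.val_mul]; ring
    rw [Finset.sum_congr rfl (fun i _ => h6 i), fou_swap]
    congr 1
    apply List.map_congr_left
    intro w' _
    rw [Finset.sum_mul]
  -- only the class of `w` contributes
  have h7 : (oT V).filter (fun w' => decide (cl (al V) w' = cl (al V) w)) = [w] := by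
    have h8 := lemU V hL hR (cl (al V) w)
    rw [if_neg hcl, List.countP_eq_length_filter] at h8
    obtain ⟨a, ha⟩ := List.length_eq_one_iff.1 h8
    have hmem : w ∈ (oT V).filter (fun w' => decide (cl (al V) w' = cl (al V) w)) := by
      rw [List.mem_filter]; exact ⟨hw, by simp⟩
    rw [ha, List.mem_singleton] at hmem
    rw [ha, hmem]
  rw [fou_filter (fun w' => decide (cl (al V) w' = cl (al V) w)) _ (oT V), h7] at h5
  · rw [List.map_cons, List.map_nil, List.sum_cons, List.sum_nil, add_zero, inv_mul_cancel,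
      map_one] at h5
    have h9 : ∑ i : Fin c, (X i (1 : GA (al V))).val = (c : K) := by
      simp
    rw [h9] at h5
    have h10 := (mul_eq_zero.1 h5).resolve_left hX.card
    rw [hd] at h10
    exact sub_eq_zero.1 h10
  · intro w' _ hw'
    have hne : cl (al V) w' ≠ cl (al V) w := by simpa using hw'
    rw [hX.orth (w⁻¹ * w'), zero_mul]
    rw [map_mul, map_inv]
    intro h
    exact hne (inv_mul_eq_one.1 h).symm


end

end Pool.Agent.F8.NG
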