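import Pool.Agent.Lib.MP_305fdd_al.F8.StmHN

/-!
# MP_305fdd_al: once-punctured torus bundles with positive monodromy. Definitions.

`eL : x ↦ x u, u ↦ u` and `eR : x ↦ x, u ↦ u x` are the elementary positive automorphisms of the free group
`F` with the basis `x = x0`, `u = ga`. `al V` is the product of the letters of the word `V` (the first letter is
applied first). `oc V i j` is the list of the prefixes `w` of `al V (lt i) = w (lt j) w'` in front of
the letter `lt j`. The groups are `GP a N = GA (a ^ N)`, the cyclic covers of `GA a`.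
-/

set_option autoImplicit false

namespace Pool.Agent.F8.NG

open Pool.Agent.MP_305fdd_al Pool.Agent.Lib.MP_305fdd_al Pool.Agent.F2X Pool.Agent.F8
  Pool.Agent.F8.HN

/-! ### Positive automorphisms -/

/-- `x ↦ x u`, `u ↦ u` -/
def eL : MulAut F := mkA ga (ga⁻¹ * gb) ga (ga * gb) (by simp) (by simp) (by simp) (by simp)

/-- `x ↦ x`, `u ↦ u x` -/
def eR : MulAut F := mkA (ga * gb⁻¹ * ga) ga gb (gb * ga⁻¹ * gb)
  (by simp) (by simp [mul_assoc]) (by simp [mul_assoc]) (by simp)

theorem eL_ga : eL ga = ga := by
  unfold eL; rw [mkA_apply, lf_ga]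
theorem eL_gb : eL gb = ga⁻¹ * gb := by
  unfold eL; rw [mkA_apply, lf_gb]
theorem eR_ga' : eR ga = ga * gb⁻¹ * ga := by
  unfold eR; rw [mkA_apply, lf_ga]
theorem eR_gb : eR gb = ga := by
  unfold eR; rw [mkA_apply, lf_gb]
theorem eL_x0 : eL x0 = x0 * ga := by
  unfold x0; rw [map_mul, map_inv, eL_ga, eL_gb]; group
theorem eR_ga : eR ga = ga * x0 := by
  unfold x0; rw [eR_ga']; group
theorem eR_x0 : eR x0 = x0 := by
  unfold x0; rw [map_mul, map_inv, eR_ga', eR_gb]; group

/-- the elementary automorphisms -/
def el : Bool → MulAut F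
  | false => eL
  | true => eR

/-- the automorphism given by a word; the first letter of the word is applied first -/
def al : List Bool → MulAut F
  | [] => 1
  | b :: V => al V * el b

theorem al_nil : al [] = 1 := rfl
theorem al_cons (b : Bool) (V : List Bool) : al (b :: V) = al V * el b := rfl

theorem al_append (V V' : List Bool) : al (V ++ V') = al V' * al V := by
  induction V with
  | nil => rw [List.nil_append, al_nil, mul_one]
  | cons b V ih => rw [List.cons_append, al_cons, al_cons, ih, mul_assoc]

theorem al_Lx (V : List Bool) : al (false :: V) x0 = al V x0 * al V ga := by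
  rw [al_cons, MulAut.mul_apply]
  show al V (eL x0) = _
  rw [eL_x0, map_mul]
theorem al_Lu (V : List Bool) : al (false :: V) ga = al V ga := by
  rw [al_cons, MulAut.mul_apply]
  show al V (eL ga) = _
  rw [eL_ga]
theorem al_Rx (V : List Bool) : al (true :: V) x0 = al V x0 := by
  rw [al_cons, MulAut.mul_apply]
  show al V (eR x0) = _
  rw [eR_x0]
theorem al_Ru (V : List Bool) : al (true :: V) ga = al V ga * al V x0 := by
  rw [al_cons, MulAut.mul_apply]
  show al V (eR ga) = _
  rw [eR_ga, map_mul]

/-- the `N`-th power of a word -/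
def rep (W : List Bool) : ℕ → List Bool
  | 0 => []
  | N + 1 => rep W N ++ W

theorem al_rep (W : List Bool) (N : ℕ) : al (rep W N) = al W ^ N := by
  induction N with
  | zero => rw [pow_zero]; rfl
  | succ N ih =>
    show al (rep W N ++ W) = _
    rw [al_append, ih, pow_succ']

theorem rep_add (W : List Bool) (M N : ℕ) : rep W (M + N) = rep W M ++ rep W N := by
  induction N with
  | zero => show rep W M = rep W M ++ []; rw [List.append_nil]
  | succ N ih =>
    show rep W (M + N) ++ W = rep W M ++ (rep W N ++ W)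
    rw [ih, List.append_assoc]

/-- the prefixes of `al V (lt i)` in front of the letter `lt j` -/
def oc : List Bool → Bool → Bool → List F
  | [], i, j => if i = j then [1] else []
  | false :: V, false, j => oc V false j ++ (oc V true j).map (fun w => al V x0 * w)
  | false :: V, true, j => oc V true j
  | true :: V, false, j => oc V false j
  | true :: V, true, j => oc V true j ++ (oc V false j).map (fun w => al V ga * w)

theorem oc_Lx (V : List Bool) (j : Bool) : oc (false :: V) false j =
    oc V false j ++ (oc V true j).map (fun w => al V x0 * w) := rfl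
theorem oc_Lu (V : List Bool) (j : Bool) : oc (false :: V) true j = oc V true j := rfl
theorem oc_Rx (V : List Bool) (j : Bool) : oc (true :: V) false j = oc V false j := rfl
theorem oc_Ru (V : List Bool) (j : Bool) : oc (true :: V) true j =
    oc V true j ++ (oc V false j).map (fun w => al V ga * w) := rfl

/-- the occurrences of `lt i` in `al V (lt i)`, for both letters -/
def oT (V : List Bool) : List F := oc V false false ++ oc V true true

/-! ### The groups -/

section liftA

variable {Q : Type} [Group Q] {α : MulAut F}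

theorem liftA_aux (f : F →* Q) (s : Q) (h : ∀ w, f (α w) = s * f w * s⁻¹)
    (g : Multiplicative ℤ) : f.comp (zpowersHom (MulAut F) α g).toMonoidHom =
      (MulAut.conj (zpowersHom Q s g)).toMonoidHom.comp f := by
  have hi : ∀ w : F, f (α⁻¹ w) = s⁻¹ * f w * s := by
    intro w
    have := h (α⁻¹ w)
    rw [MulAut.apply_inv_self] at this
    rw [this]; group
  have hz : ∀ (n : ℤ) (w : F), f ((α ^ n) w) = s ^ n * f w * (s ^ n)⁻¹ := by
    intro n
    induction n using Int.induction_on with
    | zero => intro w; simp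
    | succ i ih =>
      intro w
      rw [zpow_add_one, MulAut.mul_apply, ih, h, zpow_add_one]; group
    | pred i ih =>
      intro w
      rw [zpow_sub_one, MulAut.mul_apply, ih, hi, zpow_sub_one]; group
  ext w
  exact hz (Multiplicative.toAdd g) _

/-- the universal property of `GA α` -/
def liftA (f : F →* Q) (s : Q) (h : ∀ w, f (α w) = s * f w * s⁻¹) : GA α →* Q :=
  SemidirectProduct.lift f (zpowersHom Q s) (liftA_aux f s h)

theorem liftA_iA (f : F →* Q) (s : Q) (h : ∀ w, f (α w) = s * f w * s⁻¹) (w : F) :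
    liftA f s h (iA α w) = f w := SemidirectProduct.lift_inl _ _ _ w

theorem liftA_tA (f : F →* Q) (s : Q) (h : ∀ w, f (α w) = s * f w * s⁻¹) :
    liftA f s h (tA α) = s := by
  unfold tA liftA
  rw [SemidirectProduct.lift_inr, zpowersHom_apply]; simp

/-- homomorphisms on `GA α` are determined by their values on `F` and `t` -/
theorem homA_ext {f g : GA α →* Q} (h : ∀ w, f (iA α w) = g (iA α w)) (ht : f (tA α) = g (tA α)) :
    f = g := by
  ext x
  obtain ⟨w, n, rfl⟩ := GA_cases α x
  rw [map_mul, map_mul, map_zpow, map_zpow, h, ht]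

end liftA

/-- the `N`-fold cyclic cover of `GA a` -/
abbrev GP (a : MulAut F) (N : ℕ) : Type := GA (a ^ N)

/-- the inclusion of `F` -/
abbrev iP (a : MulAut F) (N : ℕ) : F →* GP a N := iA (a ^ N)

/-- the generator of `ℤ` -/
abbrev tP (a : MulAut F) (N : ℕ) : GP a N := tA (a ^ N)

/-- the projection to `ℤ` -/
abbrev nP (a : MulAut F) (N : ℕ) : GP a N →* Multiplicative ℤ := nA (a ^ N)

/-- powers of `t` -/
theorem tP_pow_conj (a : MulAut F) (N k : ℕ) (w : F) :
    tP a N ^ k * iP a N w * (tP a N ^ k)⁻¹ = iP a N ((a ^ (N * k)) w) := by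
  induction k generalizing w with
  | zero => simp
  | succ k ih =>
    have : tP a N ^ (k + 1) * iP a N w * (tP a N ^ (k + 1))⁻¹ =
        tP a N ^ k * (tP a N * iP a N w * (tP a N)⁻¹) * (tP a N ^ k)⁻¹ := by
      rw [pow_succ]; group
    rw [this, tA_conj, ih, ← MulAut.mul_apply, ← pow_add]
    rfl

/-- the subgroup of index `m` -/
def incP (a : MulAut F) (n m : ℕ) : GP a (n * m) →* GP a n :=
  liftA (iP a n) (tP a n ^ m) fun w => (tP_pow_conj a n m w).symm

theorem incP_iP (a : MulAut F) (n m : ℕ) (w : F) : incP a n m (iP a (n * m) w) = iP a n w :=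
  liftA_iA _ _ _ _
theorem incP_tP (a : MulAut F) (n m : ℕ) : incP a n m (tP a (n * m)) = tP a n ^ m :=
  liftA_tA _ _ _

/-! ### The trace on `H¹` -/

/-- `s(ρ, χ) = ∑ χ(w) tr ρ(t⁻¹ w) - tr ρ(t)`, the trace of `t⁻¹` on `H¹(F, ρ ⊗ χ)`, for `α = al V` -/
def sT (V : List Bool) {α : MulAut F} {K : Type} [CommRing K] (ρ : GA α →* SL2 K)
    (χ : GA α →* Kˣ) : K :=
  ((oT V).map fun w => (χ (iA α w)).val * tr (ρ ((tA α)⁻¹ * iA α w))).sum - tr (ρ (tA α))

/-- the class group `ℤ² / (α - 1)`, written multiplicatively -/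
abbrev CG (α : MulAut F) : Type :=
  Multiplicative ((Fin 2 → ℤ) ⧸ (((AM α).val - 1).mulVecLin.toAddMonoidHom).range)

/-- the class of an element of `F` -/
def cl (α : MulAut F) : F →* CG α :=
  (AddMonoidHom.toMultiplicative (QuotientAddGroup.mk' _)).comp abh

theorem cl_al (α : MulAut F) (w : F) : cl α (α w) = cl α w := by
  apply Multiplicative.toAdd.injective
  show (QuotientAddGroup.mk (vec (α w)) : (Fin 2 → ℤ) ⧸ _) = QuotientAddGroup.mk (vec w)
  rw [QuotientAddGroup.eq_iff_sub_mem, AM_vec]
  exact ⟨vec w, by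
    show ((AM α).val - 1).mulVec (vec w) = _
    rw [Matrix.sub_mulVec, Matrix.one_mulVec]⟩

theorem cl_surjective (α : MulAut F) : Function.Surjective (cl α) := by
  intro c
  obtain ⟨v, hv⟩ := QuotientAddGroup.mk_surjective (Multiplicative.toAdd c)
  obtain ⟨w, hw⟩ := vec_surj v
  refine ⟨w, ?_⟩
  apply Multiplicative.toAdd.injective
  rw [← hv, ← hw]
  rfl

/-- A complete family of characters of `GA α`: characters `χ` with `χ t = 1`, whose number is
nonzero in `K`, and such that `∑ χ(w) = 0` for all `w ∈ F` of non-trivial class. -/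
structure Cpl (α : MulAut F) {K : Type} [CommRing K] {c : ℕ} (X : Fin c → (GA α →* Kˣ)) : Prop where
  /-- trivial on `t` -/
  t1 : ∀ i, X i (tA α) = 1
  /-- the number of elements is nonzero -/
  card : (c : K) ≠ 0
  /-- orthogonality -/
  orth : ∀ w : F, cl α w ≠ 1 → ∑ i, (X i (iA α w)).val = 0

/-- a proper occurrence of `u` in `al V u`: neither the first nor the last letter -/
def Pr (V : List Bool) (w : F) : Prop :=
  w ∈ oc V true true ∧ 0 < cx w + cu w ∧ cx w + cu w + 1 < cx (al V ga) + cu (al V ga)

/-- the loops `t⁻¹ w` -/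
def gl (α : MulAut F) (w : F) : GA α := (tA α)⁻¹ * iA α w

end Pool.Agent.F8.NG
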