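import Pool.Agent.Lib.MP_305fdd_al.F8.NG.Occ

/-!
# MP_305fdd_al, positive monodromies: the factor `u x u u`

For `W = V₁ R Lᵃ`, `a ≥ 1`, and `n ≥ 2` the word `al W ^ n (u)` has a factor `u x u u` which is neither at the
beginning nor at the end, so there are three proper loops `p`, `p u x`, `p u x u`.
-/

set_option autoImplicit false

namespace Pool.Agent.F8.NG

open Pool.Agent.MP_305fdd_al Pool.Agent.Lib.MP_305fdd_al Pool.Agent.F2X Pool.Agent.F8
  Pool.Agent.F8.HN

/-- `Lᵃ` -/
abbrev Ls (a : ℕ) : List Bool := List.replicate a false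

theorem im_Ls_true (a : ℕ) : im (Ls a) true = [true] := by
  induction a with
  | zero => rfl
  | succ a ih => exact ih

theorem im_Ls_false (a : ℕ) : im (Ls a) false = false :: List.replicate a true := by
  induction a with
  | zero => rfl
  | succ a ih =>
    show im (Ls a) false ++ im (Ls a) true = _
    rw [ih, im_Ls_true, List.cons_append, ← List.replicate_succ']

theorem im_RLs_true (a : ℕ) : im (true :: Ls a) true = true :: false :: List.replicate a true := by
  show im (Ls a) true ++ im (Ls a) false = _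
  rw [im_Ls_true, im_Ls_false]; rfl

theorem im_RLs_false (a : ℕ) : im (true :: Ls a) false = false :: List.replicate a true :=
  im_Ls_false a

/-- images under `R Lᵃ` end with `u` -/
theorem ims_RLs_end (b : ℕ) (l : List Bool) : ims (true :: Ls (b + 1)) l = [] ∨
    ∃ m, ims (true :: Ls (b + 1)) l = m ++ [true] := by
  induction l using List.reverseRecOn with
  | nil => exact Or.inl rfl
  | append_singleton l c _ =>
    right
    rw [ims_append, ims_single]
    cases c
    · rw [im_RLs_false, List.replicate_succ']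
      exact ⟨ims (true :: Ls (b + 1)) l ++ false :: List.replicate b true, by simp⟩
    · rw [im_RLs_true, List.replicate_succ']
      exact ⟨ims (true :: Ls (b + 1)) l ++ true :: false :: List.replicate b true, by simp⟩

/-- the factor `u x u u` after `R Lᵃ` -/
theorem fac_RLs (b : ℕ) (S1 S2 : List Bool) (h : S1 ≠ []) :
    ∃ P Q : List Bool, P ≠ [] ∧ Q ≠ [] ∧
      ims (true :: Ls (b + 1)) (true :: (S1 ++ true :: S2)) = P ++ true :: false :: true :: true :: Q := by
  obtain ⟨S, c, rfl⟩ : ∃ S c, S1 = S ++ [c] := by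
    rcases List.eq_nil_or_concat S1 with h' | ⟨S, c, h'⟩
    · exact absurd h' h
    · exact ⟨S, c, by rw [h', List.concat_eq_append]⟩
  -- the part before the last `x`
  obtain ⟨m, hm⟩ : ∃ m : List Bool, im (true :: Ls (b + 1)) c = m ++ false ::
      List.replicate (b + 1) true ∧ (m = [] ∨ m = [true]) := by
    cases c
    · exact ⟨[], im_RLs_false _, Or.inl rfl⟩
    · exact ⟨[true], im_RLs_true _, Or.inr rfl⟩
  obtain ⟨hm1, hm2⟩ := hm
  obtain ⟨P, hP, hP'⟩ : ∃ P : List Bool, P ≠ [] ∧
      true :: false :: List.replicate (b + 1) true ++ (ims (true :: Ls (b + 1)) S ++ m) =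
        P ++ [true] := by
    rcases hm2 with rfl | rfl
    · rcases ims_RLs_end b S with h1 | ⟨l, h1⟩
      · rw [h1]
        exact ⟨true :: false :: List.replicate b true, by simp, by simp [List.replicate_succ']⟩
      · rw [h1]
        exact ⟨true :: false :: List.replicate (b + 1) true ++ l, by simp, by simp⟩
    · exact ⟨true :: false :: List.replicate (b + 1) true ++ ims (true :: Ls (b + 1)) S, by simp,
        by simp⟩
  refine ⟨P, List.replicate b true ++ false :: List.replicate (b + 1) true ++
    ims (true :: Ls (b + 1)) S2, hP, by simp, ?_⟩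
  have e1 : ims (true :: Ls (b + 1)) (true :: (S ++ [c] ++ true :: S2)) =
      (true :: false :: List.replicate (b + 1) true ++ (ims (true :: Ls (b + 1)) S ++ m)) ++
        (false :: List.replicate (b + 1) true ++ (true :: false :: List.replicate (b + 1) true ++
          ims (true :: Ls (b + 1)) S2)) := by
    rw [ims_cons, im_RLs_true, ims_append, ims_append, ims_single, ims_cons, im_RLs_true, hm1]
    simp
  rw [e1, hP']
  have e2 : List.replicate (b + 1) true ++ [true] = true :: true :: List.replicate b true := by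
    rw [← List.replicate_succ', List.replicate_succ, List.replicate_succ]
  have e3 : List.replicate (b + 1) true ++ (true :: false :: List.replicate (b + 1) true ++
      ims (true :: Ls (b + 1)) S2) = (List.replicate (b + 1) true ++ [true]) ++
        (false :: List.replicate (b + 1) true ++ ims (true :: Ls (b + 1)) S2) := by simp
  rw [List.cons_append, e3, e2]
  simp

/-- the word `V₁ R L^(b+1)` -/
def Wd (V1 : List Bool) (b : ℕ) : List Bool := V1 ++ true :: Ls (b + 1)

/-- the factor `u x u u` in the square -/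
theorem fac_two (V1 : List Bool) (b : ℕ) : ∃ P Q : List Bool, P ≠ [] ∧ Q ≠ [] ∧
    im (Wd V1 b ++ Wd V1 b) true = P ++ true :: false :: true :: true :: Q := by
  obtain ⟨z, hz⟩ := im_head V1 true
  obtain ⟨y, hy⟩ := im_head V1 false
  obtain ⟨P, Q, hP, hQ, hPQ⟩ := fac_RLs b (z ++ false :: y)
    (z ++ ims V1 (List.replicate b true)) (by simp)
  have e1 : im (Wd V1 b ++ Wd V1 b) true = ims (true :: (Ls (b + 1) ++ Wd V1 b)) (im V1 true) := by
    rw [← im_append]
    unfold Wd
    simp
  have e2 : im (true :: (Ls (b + 1) ++ Wd V1 b)) true =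
      ims (Wd V1 b) (true :: false :: true :: List.replicate b true) := by
    show im (Ls (b + 1) ++ Wd V1 b) true ++ im (Ls (b + 1) ++ Wd V1 b) false = _
    rw [im_append, im_append, im_Ls_true, im_Ls_false, ← ims_append]
    rfl
  have e3 : ims (Wd V1 b) (true :: false :: true :: List.replicate b true) =
      ims (true :: Ls (b + 1)) (true :: ((z ++ false :: y) ++ true ::
        (z ++ ims V1 (List.replicate b true)))) := by
    unfold Wd
    rw [← ims_ims, ims_cons, ims_cons, ims_cons, hz, hy]
    simp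
  refine ⟨P, Q ++ ims (true :: (Ls (b + 1) ++ Wd V1 b)) z, hP, by simp [hQ], ?_⟩
  rw [e1, hz, ims_cons, e2, e3, hPQ]
  simp

/-- the three proper loops `p`, `p u x`, `p u x u` -/
theorem three_loops (V1 : List Bool) (b : ℕ) : ∃ p : F, ∀ n : ℕ, 2 ≤ n →
    Pr (rep (Wd V1 b) n) p ∧ Pr (rep (Wd V1 b) n) (p * ga * x0) ∧
      Pr (rep (Wd V1 b) n) (p * ga * x0 * ga) := by
  obtain ⟨P, Q, hP, hQ, hPQ⟩ := fac_two V1 b
  refine ⟨pd P, fun n hn => ?_⟩
  obtain ⟨k, rfl⟩ : ∃ k, n = k + 2 := ⟨n - 2, by omega⟩
  have e1 : rep (Wd V1 b) (k + 2) = rep (Wd V1 b) k ++ (Wd V1 b ++ Wd V1 b) := by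
    show rep (Wd V1 b) k ++ Wd V1 b ++ Wd V1 b = _
    rw [List.append_assoc]
  obtain ⟨l, hl⟩ := im_head (rep (Wd V1 b) k) true
  have e2 : im (rep (Wd V1 b) (k + 2)) true = P ++ true :: false :: true :: true ::
      (Q ++ ims (Wd V1 b ++ Wd V1 b) l) := by
    rw [e1, im_append, hl, ims_cons, hPQ]
    simp
  have hx : pd [true, false] = ga * x0 := by
    show ga * (x0 * 1) = _
    rw [mul_one]
  have hu : pd [true, false, true] = ga * x0 * ga := by
    show ga * (x0 * (ga * 1)) = _
    rw [mul_one, mul_assoc]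
  refine ⟨?_, ?_, ?_⟩
  · exact pr_of_im _ P _ e2 hP (by simp)
  · have := pr_of_im (rep (Wd V1 b) (k + 2)) (P ++ [true, false])
      (true :: (Q ++ ims (Wd V1 b ++ Wd V1 b) l)) (by rw [e2]; simp) (by simp) (by simp)
    rwa [pd_append, hx, ← mul_assoc] at this
  · have := pr_of_im (rep (Wd V1 b) (k + 2)) (P ++ [true, false, true])
      (Q ++ ims (Wd V1 b ++ Wd V1 b) l) (by rw [e2]; simp) (by simp) (by simp [hQ])
    rwa [pd_append, hu, ← mul_assoc, ← mul_assoc] at this

end Pool.Agent.F8.NG
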