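import Pool.Agent.Lib.MP_305fdd_al.F8.Defs

/-!
# Seven traces determine the character of a group with three generators (Fricke, Vogt)

No irreducibility is needed, and the coefficients may be any commutative ring: in the algebra
`M₂(K) × M₂(K)` the `K`-span of the eight ordered monomials in the images of the generators is stable
under multiplication with the generators.
-/

set_option autoImplicit false

namespace Pool.Agent.F8.NG

open Pool.Agent.F8

section

variable {K G : Type} [CommRing K] [Group G]

/-- pairs of matrices -/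
private abbrev E (K : Type) : Type := Matrix (Fin 2) (Fin 2) K × Matrix (Fin 2) (Fin 2) K

/-- the pair of values -/
private def FF (f g : G →* SL2 K) : G →* E K where
  toFun y := ((f y).val, (g y).val)
  map_one' := by simp
  map_mul' a b := by simp

private theorem ch2 (X Y : Matrix (Fin 2) (Fin 2) K) :
    X * Y = -(Y * X) + X.trace • Y + Y.trace • X + ((X * Y).trace - X.trace * Y.trace) • 1 := by
  rw [Matrix.eta_fin_two X, Matrix.eta_fin_two Y]
  ext i j
  fin_cases i <;> fin_cases j <;>
    simp [Matrix.mul_apply, Fin.sum_univ_two, Matrix.trace_fin_two] <;> ring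

private theorem ch1 (X : Matrix (Fin 2) (Fin 2) K) (h : X.det = 1) :
    X * X = X.trace • X - 1 := by
  rw [Matrix.det_fin_two] at h
  rw [Matrix.eta_fin_two X] at h ⊢
  ext i j
  fin_cases i <;> fin_cases j <;>
    simp [Matrix.mul_apply, Fin.sum_univ_two, Matrix.trace_fin_two] at h ⊢ <;>
    first
      | ring1
      | linear_combination (-1 : K) * h

private theorem FF_sq (f g : G →* SL2 K) (y : G) (h : tr (f y) = tr (g y)) :
    FF f g y * FF f g y = tr (f y) • FF f g y - 1 := by
  apply Prod.ext
  · exact ch1 (f y).val (f y).2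
  · have := ch1 (g y).val (g y).2
    show (g y).val * (g y).val = tr (f y) • (g y).val - 1
    rw [h]; exact this

private theorem FF_swap (f g : G →* SL2 K) (y z : G) (hy : tr (f y) = tr (g y))
    (hz : tr (f z) = tr (g z)) (hyz : tr (f (z * y)) = tr (g (z * y))) :
    FF f g y * FF f g z = -(FF f g z * FF f g y) + tr (f y) • FF f g z + tr (f z) • FF f g y +
      (tr (f (z * y)) - tr (f y) * tr (f z)) • 1 := by
  have key : ∀ r : G →* SL2 K, (r y).val * (r z).val = -((r z).val * (r y).val) +
      tr (r y) • (r z).val + tr (r z) • (r y).val + (tr (r (z * y)) - tr (r y) * tr (r z)) • 1 := by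
    intro r
    have h := ch2 (r y).val (r z).val
    have e : ((r y).val * (r z).val).trace = tr (r (z * y)) := by
      rw [Matrix.trace_mul_comm, map_mul]; rfl
    rw [e] at h
    exact h
  apply Prod.ext
  · exact key f
  · show (g y).val * (g z).val = -((g z).val * (g y).val) + tr (f y) • (g z).val +
      tr (f z) • (g y).val + (tr (f (z * y)) - tr (f y) * tr (f z)) • 1
    rw [hy, hz, hyz]
    exact key g

/-- seven traces determine the character of a group with three generators -/
theorem fricke (f g : G →* SL2 K) (x y z : G) (hgen : Subgroup.closure {x, y, z} = ⊤)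
    (hx : tr (f x) = tr (g x)) (hy : tr (f y) = tr (g y)) (hz : tr (f z) = tr (g z))
    (hxy : tr (f (x * y)) = tr (g (x * y))) (hxz : tr (f (x * z)) = tr (g (x * z)))
    (hyz : tr (f (y * z)) = tr (g (y * z))) (hxyz : tr (f (x * y * z)) = tr (g (x * y * z)))
    (w : G) : tr (f w) = tr (g w) := by
  -- monomials
  set X : E K := FF f g x with hX
  set Y : E K := FF f g y with hY
  set Z : E K := FF f g z with hZ
  have sX := FF_sq f g x hx
  have sY := FF_sq f g y hy
  have sZ := FF_sq f g z hz
  have yx := FF_swap f g y x hy hx hxy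
  have zx := FF_swap f g z x hz hx hxz
  have zy := FF_swap f g z y hz hy hyz
  rw [← hX] at sX
  rw [← hY] at sY
  rw [← hZ] at sZ
  rw [← hX, ← hY] at yx
  rw [← hX, ← hZ] at zx
  rw [← hY, ← hZ] at zy
  generalize tr (f (x * y)) - tr (f y) * tr (f x) = axy at yx
  generalize tr (f (x * z)) - tr (f z) * tr (f x) = axz at zx
  generalize tr (f (y * z)) - tr (f z) * tr (f y) = ayz at zy
  -- the smaller span
  let S0 : Submodule K (E K) := Submodule.span K {1, Z}
  let S1 : Submodule K (E K) := Submodule.span K {1, Z, Y, Y * Z}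
  let S : Submodule K (E K) := Submodule.span K {1, Z, Y, Y * Z, X, X * Z, X * Y, X * (Y * Z)}
  have sub : ∀ (T T' : Submodule K (E K)) (s : Set (E K)) (A : E K), T = Submodule.span K s →
      (∀ v ∈ s, A * v ∈ T') → ∀ v ∈ T, A * v ∈ T' := by
    intro T T' s A hT h v hv
    subst hT
    induction hv using Submodule.span_induction with
    | mem v hv => exact h v hv
    | zero => rw [mul_zero]; exact T'.zero_mem
    | add a b _ _ ha hb => rw [mul_add]; exact T'.add_mem ha hb
    | smul c a _ ha => rw [mul_smul_comm]; exact T'.smul_mem c ha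
  have m1 : ∀ v ∈ ({1, Z, Y, Y * Z} : Set (E K)), v ∈ S1 := fun v hv => Submodule.subset_span hv
  have m : ∀ v ∈ ({1, Z, Y, Y * Z, X, X * Z, X * Y, X * (Y * Z)} : Set (E K)), v ∈ S :=
    fun v hv => Submodule.subset_span hv
  have S01 : S0 ≤ S1 := by
    apply Submodule.span_mono
    intro v hv
    simp only [Set.mem_insert_iff, Set.mem_singleton_iff] at hv ⊢
    tauto
  have S1S : S1 ≤ S := by
    apply Submodule.span_mono
    intro v hv
    simp only [Set.mem_insert_iff, Set.mem_singleton_iff] at hv ⊢
    tauto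
  -- multiplication with `Z` on `S0`
  have zS0 : ∀ v ∈ S0, Z * v ∈ S0 := by
    refine sub S0 S0 _ Z rfl ?_
    intro v hv
    simp only [Set.mem_insert_iff, Set.mem_singleton_iff] at hv
    rcases hv with rfl | rfl
    · rw [mul_one]; exact Submodule.subset_span (by simp)
    · rw [sZ]
      exact S0.sub_mem (S0.smul_mem _ (Submodule.subset_span (by simp)))
        (Submodule.subset_span (by simp))
  have yS0 : ∀ v ∈ S0, Y * v ∈ S1 := by
    refine sub S0 S1 _ Y rfl ?_
    intro v hv
    simp only [Set.mem_insert_iff, Set.mem_singleton_iff] at hv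
    rcases hv with rfl | rfl
    · rw [mul_one]; exact m1 _ (by simp)
    · exact m1 _ (by simp)
  -- multiplication on `S1`
  have yS1 : ∀ v ∈ S1, Y * v ∈ S1 := by
    refine sub S1 S1 _ Y rfl ?_
    intro v hv
    simp only [Set.mem_insert_iff, Set.mem_singleton_iff] at hv
    rcases hv with rfl | rfl | rfl | rfl
    · rw [mul_one]; exact m1 _ (by simp)
    · exact m1 _ (by simp)
    · rw [sY]; exact S1.sub_mem (S1.smul_mem _ (m1 _ (by simp))) (m1 _ (by simp))
    · rw [← mul_assoc, sY, sub_mul, smul_mul_assoc, one_mul]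
      exact S1.sub_mem (S1.smul_mem _ (m1 _ (by simp))) (m1 _ (by simp))
  have zyv : ∀ v ∈ S0, Z * (Y * v) ∈ S1 := by
    intro v hv
    rw [← mul_assoc, zy]
    simp only [add_mul, neg_mul, smul_mul_assoc, mul_assoc, one_mul]
    exact S1.add_mem (S1.add_mem (S1.add_mem (S1.neg_mem (yS0 _ (zS0 v hv)))
      (S1.smul_mem _ (yS0 v hv))) (S1.smul_mem _ (S01 (zS0 v hv)))) (S1.smul_mem _ (S01 hv))
  have o0 : (1 : E K) ∈ S0 := Submodule.subset_span (by simp)
  have z0 : Z ∈ S0 := Submodule.subset_span (by simp)
  have zS1 : ∀ v ∈ S1, Z * v ∈ S1 := by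
    refine sub S1 S1 _ Z rfl ?_
    intro v hv
    simp only [Set.mem_insert_iff, Set.mem_singleton_iff] at hv
    rcases hv with rfl | rfl | rfl | rfl
    · exact S01 (zS0 _ o0)
    · exact S01 (zS0 _ z0)
    · have := zyv 1 o0
      rwa [mul_one] at this
    · exact zyv Z z0
  -- multiplication with `X`
  have xS1 : ∀ v ∈ S1, X * v ∈ S := by
    refine sub S1 S _ X rfl ?_
    intro v hv
    simp only [Set.mem_insert_iff, Set.mem_singleton_iff] at hv
    rcases hv with rfl | rfl | rfl | rfl
    · rw [mul_one]; exact m _ (by simp)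
    · exact m _ (by simp)
    · exact m _ (by simp)
    · exact m _ (by simp)
  have big : ∀ A : E K, (∀ v ∈ S1, A * v ∈ S) → (∀ v ∈ S1, A * (X * v) ∈ S) →
      ∀ v ∈ S, A * v ∈ S := by
    intro A h1 h2
    refine sub S S _ A rfl ?_
    intro v hv
    simp only [Set.mem_insert_iff, Set.mem_singleton_iff] at hv
    rcases hv with rfl | rfl | rfl | rfl | rfl | rfl | rfl | rfl
    · exact h1 _ (m1 _ (by simp))
    · exact h1 _ (m1 _ (by simp))
    · exact h1 _ (m1 _ (by simp))
    · exact h1 _ (m1 _ (by simp))
    · have := h2 1 (m1 _ (by simp))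
      rwa [mul_one] at this
    · exact h2 _ (m1 _ (by simp))
    · exact h2 _ (m1 _ (by simp))
    · exact h2 _ (m1 _ (by simp))
  have xS : ∀ v ∈ S, X * v ∈ S := by
    refine big X xS1 ?_
    intro v hv
    rw [← mul_assoc, sX, sub_mul, smul_mul_assoc, one_mul]
    exact S.sub_mem (S.smul_mem _ (xS1 v hv)) (S1S hv)
  have yS : ∀ v ∈ S, Y * v ∈ S := by
    refine big Y (fun v hv => S1S (yS1 v hv)) ?_
    intro v hv
    rw [← mul_assoc, yx]
    simp only [add_mul, neg_mul, smul_mul_assoc, mul_assoc, one_mul]
    exact S.add_mem (S.add_mem (S.add_mem (S.neg_mem (xS1 _ (yS1 v hv)))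
      (S.smul_mem _ (xS1 v hv))) (S.smul_mem _ (S1S (yS1 v hv)))) (S.smul_mem _ (S1S hv))
  have zS : ∀ v ∈ S, Z * v ∈ S := by
    refine big Z (fun v hv => S1S (zS1 v hv)) ?_
    intro v hv
    rw [← mul_assoc, zx]
    simp only [add_mul, neg_mul, smul_mul_assoc, mul_assoc, one_mul]
    exact S.add_mem (S.add_mem (S.add_mem (S.neg_mem (xS1 _ (zS1 v hv)))
      (S.smul_mem _ (xS1 v hv))) (S.smul_mem _ (S1S (zS1 v hv)))) (S.smul_mem _ (S1S hv))
  -- inverses
  have inv : ∀ u : G, tr (f u) = tr (g u) → FF f g u⁻¹ = tr (f u) • 1 - FF f g u := by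
    intro u hu
    have h1 := FF_sq f g u hu
    have h2 : FF f g u⁻¹ * FF f g u = 1 := by rw [← map_mul, inv_mul_cancel, map_one]
    have h3 : FF f g u⁻¹ * (FF f g u * FF f g u) = FF f g u := by rw [← mul_assoc, h2, one_mul]
    rw [h1, mul_sub, mul_one, mul_smul_comm, h2] at h3
    rw [← h3]; abel
  have all : ∀ u : G, ∀ v ∈ S, FF f g u * v ∈ S := by
    intro u
    have hu : u ∈ Subgroup.closure {x, y, z} := by rw [hgen]; trivial
    induction hu using Subgroup.closure_induction'' with
    | mem u hu =>
      simp only [Set.mem_insert_iff, Set.mem_singleton_iff] at hu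
      rcases hu with rfl | rfl | rfl
      · exact xS
      · exact yS
      · exact zS
    | inv_mem u hu =>
      simp only [Set.mem_insert_iff, Set.mem_singleton_iff] at hu
      intro v hv
      rcases hu with rfl | rfl | rfl
      · rw [inv _ hx, sub_mul, smul_mul_assoc, one_mul]
        exact S.sub_mem (S.smul_mem _ hv) (xS v hv)
      · rw [inv _ hy, sub_mul, smul_mul_assoc, one_mul]
        exact S.sub_mem (S.smul_mem _ hv) (yS v hv)
      · rw [inv _ hz, sub_mul, smul_mul_assoc, one_mul]
        exact S.sub_mem (S.smul_mem _ hv) (zS v hv)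
    | one => intro v hv; rw [map_one, one_mul]; exact hv
    | mul a b _ _ ha hb => intro v hv; rw [map_mul, mul_assoc]; exact ha _ (hb v hv)
  have hw : FF f g w ∈ S := by
    have := all w 1 (m _ (by simp))
    rwa [mul_one] at this
  -- the difference of the traces
  have hD : ∀ v ∈ S, v.1.trace = v.2.trace := by
    intro v hv
    induction hv using Submodule.span_induction with
    | mem v hv =>
      simp only [Set.mem_insert_iff, Set.mem_singleton_iff] at hv
      rcases hv with rfl | rfl | rfl | rfl | rfl | rfl | rfl | rfl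
      · simp
      · exact hz
      · exact hy
      · rw [hY, hZ, ← map_mul]; exact hyz
      · exact hx
      · rw [hX, hZ, ← map_mul]; exact hxz
      · rw [hX, hY, ← map_mul]; exact hxy
      · rw [hX, hY, hZ, ← map_mul, ← map_mul, ← mul_assoc]; exact hxyz
    | zero => simp
    | add a b _ _ ha hb =>
      rw [Prod.fst_add, Prod.snd_add, Matrix.trace_add, Matrix.trace_add, ha, hb]
    | smul c a _ ha =>
      rw [Prod.smul_fst, Prod.smul_snd, Matrix.trace_smul, Matrix.trace_smul, ha]
  exact hD _ hw

end

end Pool.Agent.F8.NG
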