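import Pool.Agent.Lib.MP_305fdd_al.F8.NG.Coh
import Pool.Agent.Lib.MP_305fdd_al.F8.NG.Fricke
import Pool.Agent.Lib.MP_305fdd_al.F8.P.bn

/-!
# MP_305fdd_al, positive monodromies: isolation of an irreducible representation

`a = al (Wd V₁ b)` is an arbitrary product of `eL` and `eR` which ends with `eR eLᵇ⁺¹` (every hyperbolic
element of `SL₂(ℤ)` of positive trace is conjugate to the matrix of such a product). Two
representations of `GP a n`, `n ≥ 2`, which are irreducible on `F` and have a common exceptional value of the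
twisted cohomology for every character of a complete family at the levels `n`, `2n`, `3n`, have the same
character (`NI`). For `n ≥ 1` the same holds with the levels `2n, 4n, 6n` and `3n, 6n, 9n` (`NI1`).
-/

set_option autoImplicit false

namespace Pool.Agent.F8.NG

open Pool.Agent.MP_305fdd_al Pool.Agent.Lib.MP_305fdd_al Pool.Agent.F2X Pool.Agent.F8
  Pool.Agent.F8.HN

/-- common exceptional values: the traces of proper loops are equal -/
theorem key {K : Type} [Field K] (V : List Bool) (hL : false ∈ V) (hR : true ∈ V)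
    (hend : ∃ l, im V true = l ++ [true]) (α : MulAut F) (hα : al V = α) {c : ℕ}
    (X : Fin c → (GA α →* Kˣ)) (hX : Cpl α X) (τ : Fin c → Kˣ) (ρ ρ' : GA α →* SL2 K)
    (hi : Irr (ρ.comp (iA α))) (hi' : Irr (ρ'.comp (iA α)))
    (hE : ∀ i, Ex1 ρ (X i * (pw (τ i)).comp (nA α)) ∧ Ex1 ρ' (X i * (pw (τ i)).comp (nA α)))
    (w : F) (hw : Pr V w) : tr (ρ (gl α w)) = tr (ρ' (gl α w)) := by
  subst hα
  exact fou V hL hR X hX ρ ρ'
    (fun i => seq V ρ ρ' (X i) (τ i) (hX.t1 i) hi hi' (hE i).1 (hE i).2) w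
    (List.mem_append_right _ hw.1) (pr_cl V hL hR hend w hw)

private theorem gen_inc (a : MulAut F) (n m : ℕ) (w : F) :
    incP a n m (gl (a ^ (n * m)) w) = (tP a n ^ m)⁻¹ * iP a n w := by
  unfold gl
  rw [map_mul, map_inv, incP_tP, incP_iP]

/-- the three loops generate -/
theorem gen_top (α : MulAut F) (p : F) :
    Subgroup.closure {gl α p, gl α (p * ga * x0), gl α (p * ga * x0 * ga)} =
      (⊤ : Subgroup (GA α)) := by
  have h1 : gl α p ∈ Subgroup.closure {gl α p, gl α (p * ga * x0), gl α (p * ga * x0 * ga)} :=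
    Subgroup.subset_closure (by simp)
  have h2 : gl α (p * ga * x0) ∈
      Subgroup.closure {gl α p, gl α (p * ga * x0), gl α (p * ga * x0 * ga)} :=
    Subgroup.subset_closure (by simp)
  have h3 : gl α (p * ga * x0 * ga) ∈
      Subgroup.closure {gl α p, gl α (p * ga * x0), gl α (p * ga * x0 * ga)} :=
    Subgroup.subset_closure (by simp)
  set H : Subgroup (GA α) :=
    Subgroup.closure {gl α p, gl α (p * ga * x0), gl α (p * ga * x0 * ga)} with hH
  have hga : iA α ga ∈ H := by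
    have h : (gl α (p * ga * x0))⁻¹ * gl α (p * ga * x0 * ga) = iA α ga := by
      unfold gl
      rw [map_mul (iA α) (p * ga * x0) ga]
      group
    rw [← h]
    exact H.mul_mem (H.inv_mem h2) h3
  have hgx : iA α (ga * x0) ∈ H := by
    have h : (gl α p)⁻¹ * gl α (p * ga * x0) = iA α (ga * x0) := by
      unfold gl
      rw [mul_assoc p ga x0, map_mul (iA α) p (ga * x0)]
      group
    rw [← h]
    exact H.mul_mem (H.inv_mem h1) h2
  have hx : iA α x0 ∈ H := by
    have h : (iA α ga)⁻¹ * iA α (ga * x0) = iA α x0 := by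
      rw [map_mul]; group
    rw [← h]
    exact H.mul_mem (H.inv_mem hga) hgx
  have hgb : iA α gb ∈ H := by
    have h : iA α ga * (iA α x0)⁻¹ = iA α gb := by
      rw [← map_inv, ← map_mul]
      congr 1
      unfold x0; group
    rw [← h]
    exact H.mul_mem hga (H.inv_mem hx)
  have hF : ∀ w : F, iA α w ∈ H := by
    intro w
    have h : H.comap (iA α) = ⊤ := by
      rw [eq_top_iff, ← FreeGroup.closure_range_of, Subgroup.closure_le]
      rintro _ ⟨i, rfl⟩
      fin_cases i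
      · exact hga
      · exact hgb
    have : w ∈ H.comap (iA α) := by rw [h]; trivial
    exact this
  have ht : tA α ∈ H := by
    have h : iA α p * (gl α p)⁻¹ = tA α := by
      unfold gl; group
    rw [← h]
    exact H.mul_mem (hF p) (H.inv_mem h1)
  rw [eq_top_iff]
  intro g _
  obtain ⟨w, k, rfl⟩ := GA_cases α g
  exact H.mul_mem (hF w) (H.zpow_mem ht k)

theorem gl_one (a : MulAut F) (n : ℕ) (w : F) :
    gl (a ^ n) w = incP a n 1 (gl (a ^ (n * 1)) w) := by
  rw [gen_inc]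
  unfold gl
  rw [pow_one]

theorem gl_two (a : MulAut F) (n : ℕ) (w w' : F) :
    gl (a ^ n) w * gl (a ^ n) w' = incP a n 2 (gl (a ^ (n * 2)) ((a ^ n) w * w')) := by
  rw [gen_inc, map_mul (iA (a ^ n)), ← tA_conj]
  unfold gl
  group

theorem gl_three (a : MulAut F) (n : ℕ) (w w' w'' : F) :
    gl (a ^ n) w * gl (a ^ n) w' * gl (a ^ n) w'' =
      incP a n 3 (gl (a ^ (n * 3)) ((a ^ n) ((a ^ n) w * w') * w'')) := by
  rw [gen_inc, map_mul (iA (a ^ n)), ← tA_conj, map_mul (iA (a ^ n)), ← tA_conj]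
  unfold gl
  group

/-- the restriction to the subgroup of index `m` -/
theorem comp_iP (a : MulAut F) (n m : ℕ) {Q : Type} [Group Q] (ρ : GP a n →* Q) :
    (ρ.comp (incP a n m)).comp (iP a (n * m)) = ρ.comp (iP a n) := by
  apply MonoidHom.ext
  intro v
  show ρ (incP a n m (iP a (n * m) v)) = ρ (iP a n v)
  rw [incP_iP]

/-- MAIN RESULT for `n ≥ 2` -/
theorem NI (V1 : List Bool) (b : ℕ) (a : MulAut F) (ha : al (Wd V1 b) = a) (n : ℕ) (hn : 2 ≤ n)
    (K : Type) [Field K] (ρ ρ' : GP a n →* SL2 K) (hi : Irr (ρ.comp (iP a n)))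
    (hi' : Irr (ρ'.comp (iP a n))) (c : Fin 3 → ℕ)
    (X : ∀ m : Fin 3, Fin (c m) → (GP a (n * (m.val + 1)) →* Kˣ))
    (τ : ∀ m : Fin 3, Fin (c m) → Kˣ)
    (hX : ∀ m : Fin 3, Cpl (a ^ (n * (m.val + 1))) (X m))
    (hE : ∀ (m : Fin 3) (i : Fin (c m)),
      Ex1 (ρ.comp (incP a n (m.val + 1)))
        (X m i * (pw (τ m i)).comp (nP a (n * (m.val + 1)))) ∧
      Ex1 (ρ'.comp (incP a n (m.val + 1)))
        (X m i * (pw (τ m i)).comp (nP a (n * (m.val + 1)))))
    (g : GP a n) : tr (ρ g) = tr (ρ' g) := by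
  have har : ∀ N : ℕ, al (rep (Wd V1 b) N) = a ^ N := fun N => by rw [al_rep, ha]
  -- the traces of proper loops
  have k0 : ∀ (m : Fin 3) (w' : F), Pr (rep (Wd V1 b) (n * (m.val + 1))) w' →
      tr (ρ (incP a n (m.val + 1) (gl (a ^ (n * (m.val + 1))) w'))) =
      tr (ρ' (incP a n (m.val + 1) (gl (a ^ (n * (m.val + 1))) w'))) := by
    intro m w' hw'
    obtain ⟨hL, hR, hend⟩ := rep_Wd V1 b (n * (m.val + 1)) (Nat.mul_pos (by omega) (by omega))
    exact key _ hL hR hend _ (har _) (X m) (hX m) (τ m)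
      (ρ.comp (incP a n (m.val + 1))) (ρ'.comp (incP a n (m.val + 1)))
      (by rw [comp_iP]; exact hi) (by rw [comp_iP]; exact hi') (hE m) w' hw'
  obtain ⟨p, hp⟩ := three_loops V1 b
  obtain ⟨p1, p2, p3⟩ := hp n hn
  have k1 : ∀ w' : F, Pr (rep (Wd V1 b) n) w' →
      tr (ρ (gl (a ^ n) w')) = tr (ρ' (gl (a ^ n) w')) := by
    intro w' hw'
    rw [gl_one a n w']
    exact k0 0 w' (by show Pr (rep (Wd V1 b) (n * 1)) w'; rwa [mul_one])
  have e2 : ∀ v v' : F, Pr (rep (Wd V1 b) n) v → Pr (rep (Wd V1 b) n) v' →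
      Pr (rep (Wd V1 b) (n * 2)) ((a ^ n) v * v') := by
    intro v v' hv hv'
    have h := pr_mul _ _ v v' hv hv'
    rw [← rep_add, har] at h
    rw [mul_two]; exact h
  have k2 : ∀ v v' : F, Pr (rep (Wd V1 b) n) v → Pr (rep (Wd V1 b) n) v' →
      tr (ρ (gl (a ^ n) v * gl (a ^ n) v')) = tr (ρ' (gl (a ^ n) v * gl (a ^ n) v')) := by
    intro v v' hv hv'
    rw [gl_two a n v v']
    exact k0 1 _ (e2 v v' hv hv')
  have k3 : ∀ v v' v'' : F, Pr (rep (Wd V1 b) n) v → Pr (rep (Wd V1 b) n) v' →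
      Pr (rep (Wd V1 b) n) v'' → tr (ρ (gl (a ^ n) v * gl (a ^ n) v' * gl (a ^ n) v'')) =
        tr (ρ' (gl (a ^ n) v * gl (a ^ n) v' * gl (a ^ n) v'')) := by
    intro v v' v'' hv hv' hv''
    rw [gl_three a n v v' v'']
    refine k0 2 _ ?_
    have h := pr_mul _ _ _ v'' (e2 v v' hv hv') hv''
    rw [← rep_add, har] at h
    have e : n * 2 + n = n * ((2 : Fin 3).val + 1) := by
      show n * 2 + n = n * 3
      ring
    rw [e] at h
    exact h
  exact fricke ρ ρ' _ _ _ (gen_top (a ^ n) p) (k1 _ p1) (k1 _ p2) (k1 _ p3) (k2 _ _ p1 p2)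
    (k2 _ _ p1 p3) (k2 _ _ p2 p3) (k3 _ _ _ p1 p2 p3) g

/-! ### Gluing -/

private theorem comm_entries {K : Type} [Field K] (X A B : Matrix (Fin 2) (Fin 2) K)
    (hA : X * A = A * X) (hB : X * B = B * X) (hAB : A * B ≠ B * A) :
    X 0 1 = 0 ∧ X 1 0 = 0 ∧ X 0 0 = X 1 1 := by
  have a00 := congrFun (congrFun hA 0) 0
  have a01 := congrFun (congrFun hA 0) 1
  have a10 := congrFun (congrFun hA 1) 0
  have b00 := congrFun (congrFun hB 0) 0
  have b01 := congrFun (congrFun hB 0) 1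
  have b10 := congrFun (congrFun hB 1) 0
  simp only [Matrix.mul_apply, Fin.sum_univ_two] at a00 a01 a10 b00 b01 b10
  -- it is enough to prove `v * (A B - B A) = 0` for the three numbers `v`
  have key : ∀ v : K, v * (A 0 1 * B 1 0 - A 1 0 * B 0 1) = 0 →
      v * (A 0 1 * (B 0 0 - B 1 1) - (A 0 0 - A 1 1) * B 0 1) = 0 →
      v * (A 1 0 * (B 0 0 - B 1 1) - (A 0 0 - A 1 1) * B 1 0) = 0 → v = 0 := by
    intro v h1 h2 h3
    by_contra hv
    have h1' := (mul_eq_zero.1 h1).resolve_left hv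
    have h2' := (mul_eq_zero.1 h2).resolve_left hv
    have h3' := (mul_eq_zero.1 h3).resolve_left hv
    apply hAB
    ext i j
    fin_cases i <;> fin_cases j
    · show (A * B) 0 0 = (B * A) 0 0
      simp only [Matrix.mul_apply, Fin.sum_univ_two]
      linear_combination h1'
    · show (A * B) 0 1 = (B * A) 0 1
      simp only [Matrix.mul_apply, Fin.sum_univ_two]
      linear_combination -h2'
    · show (A * B) 1 0 = (B * A) 1 0
      simp only [Matrix.mul_apply, Fin.sum_univ_two]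
      linear_combination h3'
    · show (A * B) 1 1 = (B * A) 1 1
      simp only [Matrix.mul_apply, Fin.sum_univ_two]
      linear_combination -h1'
  refine ⟨?_, ?_, ?_⟩
  · apply key
    · linear_combination (A 0 1) * b00 - (B 0 1) * a00
    · linear_combination -(A 0 1) * b01 + (B 0 1) * a01
    · linear_combination (B 0 0 - B 1 1) * a00 + (B 1 0) * a01 + (A 0 1) * b10
  · apply key
    · linear_combination -(B 1 0) * a00 + (A 1 0) * b00
    · linear_combination -(A 1 0) * b01 - (B 0 0 - B 1 1) * a00 - (B 0 1) * a10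
    · linear_combination (A 1 0) * b10 - (B 1 0) * a10
  · rw [← sub_eq_zero]
    apply key
    · linear_combination (A 0 0 - A 1 1) * b00 + (B 1 0) * a01 + (B 0 1) * a10
    · linear_combination (B 0 0 - B 1 1) * a01 - (A 0 0 - A 1 1) * b01
    · linear_combination -(B 0 0 - B 1 1) * a10 + (A 0 0 - A 1 1) * b10

/-- the commutant of an irreducible representation consists of scalars -/
theorem schur {K G : Type} [Field K] [Group G] (ρ : G →* SL2 K) (h : Irr ρ)
    (X : Matrix (Fin 2) (Fin 2) K) (hX : ∀ g, X * (ρ g).val = (ρ g).val * X) :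
    ∃ c : K, X = c • 1 := by
  obtain ⟨g, k, hgk⟩ := h
  have hne : (ρ g).val * (ρ k).val ≠ (ρ k).val * (ρ g).val := by
    intro h
    apply hgk
    have h1 : ρ g * ρ k = ρ k * ρ g := Subtype.ext h
    rw [map_mul, map_mul, map_mul, map_inv, map_inv, h1]
    have h2 : ρ k * ρ g * (ρ g)⁻¹ * (ρ k)⁻¹ = 1 := by group
    rw [h2, tr_eq]
    show (1 : Matrix (Fin 2) (Fin 2) K) 0 0 + (1 : Matrix (Fin 2) (Fin 2) K) 1 1 = 2
    rw [Matrix.one_apply_eq, Matrix.one_apply_eq]; norm_num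
  obtain ⟨h1, h2, h3⟩ := comm_entries X _ _ (hX g) (hX k) hne
  refine ⟨X 0 0, ?_⟩
  ext i j
  fin_cases i <;> fin_cases j
  · simp
  · simpa using h1
  · simpa using h2
  · simpa using h3.symm

/-- the restrictions to the subgroups of index two and three determine the character -/
theorem glue (a : MulAut F) (n : ℕ) (K : Type) [Field K] (ρ ρ' : GP a n →* SL2 K)
    (hi : Irr (ρ'.comp (iP a n)))
    (h2 : ∀ g : GP a (n * 2), tr (ρ (incP a n 2 g)) = tr (ρ' (incP a n 2 g)))
    (h3 : ∀ g : GP a (n * 3), tr (ρ (incP a n 3 g)) = tr (ρ' (incP a n 3 g)))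
    (g : GP a n) : tr (ρ g) = tr (ρ' g) := by
  have irr : ∀ m : ℕ, Irr (ρ'.comp (incP a n m)) := by
    intro m
    obtain ⟨x, y, hxy⟩ := hi
    refine ⟨iP a (n * m) x, iP a (n * m) y, ?_⟩
    have e : (ρ'.comp (incP a n m)) (iP a (n * m) x * iP a (n * m) y * (iP a (n * m) x)⁻¹ *
        (iP a (n * m) y)⁻¹) = (ρ'.comp (iP a n)) (x * y * x⁻¹ * y⁻¹) := by
      simp only [MonoidHom.comp_apply, map_mul, map_inv, incP_iP]
    rw [e]; exact hxy
  obtain ⟨P, hP⟩ := H.p_bn (GP a (n * 2)) K (ρ.comp (incP a n 2)) (ρ'.comp (incP a n 2)) h2 (irr 2)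
  obtain ⟨Q, hQ⟩ := H.p_bn (GP a (n * 3)) K (ρ.comp (incP a n 3)) (ρ'.comp (incP a n 3)) h3 (irr 3)
  have hPF : ∀ w : F, P.val * (ρ (iP a n w)).val = (ρ' (iP a n w)).val * P.val := by
    intro w
    have := hP (iP a (n * 2) w)
    rwa [MonoidHom.comp_apply, MonoidHom.comp_apply, incP_iP] at this
  have hQF : ∀ w : F, Q.val * (ρ (iP a n w)).val = (ρ' (iP a n w)).val * Q.val := by
    intro w
    have := hQ (iP a (n * 3) w)
    rwa [MonoidHom.comp_apply, MonoidHom.comp_apply, incP_iP] at this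
  have hQi : Q.val * (Q⁻¹).val = 1 := by rw [← Units.val_mul, mul_inv_cancel]; rfl
  have hQi' : (Q⁻¹).val * Q.val = 1 := by rw [← Units.val_mul, inv_mul_cancel]; rfl
  have hPi : P.val * (P⁻¹).val = 1 := by rw [← Units.val_mul, mul_inv_cancel]; rfl
  -- `P Q⁻¹` is a scalar
  obtain ⟨c, hc⟩ := schur (ρ'.comp (iP a n)) hi (P.val * (Q⁻¹).val) (fun w => by
    have h1 : (Q⁻¹).val * (ρ' (iP a n w)).val = (ρ (iP a n w)).val * (Q⁻¹).val := by
      calc (Q⁻¹).val * (ρ' (iP a n w)).val =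
          (Q⁻¹).val * ((ρ' (iP a n w)).val * Q.val) * (Q⁻¹).val := by
            rw [mul_assoc, mul_assoc, hQi, mul_one]
        _ = (Q⁻¹).val * (Q.val * (ρ (iP a n w)).val) * (Q⁻¹).val := by rw [hQF]
        _ = (ρ (iP a n w)).val * (Q⁻¹).val := by rw [← mul_assoc, hQi', one_mul]
    show P.val * (Q⁻¹).val * (ρ' (iP a n w)).val = (ρ' (iP a n w)).val * (P.val * (Q⁻¹).val)
    rw [mul_assoc, h1, ← mul_assoc, hPF, mul_assoc])
  have hPQ : P.val = c • Q.val := by
    calc P.val = P.val * (Q⁻¹).val * Q.val := by rw [mul_assoc, hQi', mul_one]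
      _ = c • Q.val := by rw [hc, smul_mul_assoc, one_mul]
  have hQt : P.val * (ρ (tP a n ^ 3)).val = (ρ' (tP a n ^ 3)).val * P.val := by
    have := hQ (tP a (n * 3))
    rw [MonoidHom.comp_apply, MonoidHom.comp_apply, incP_tP] at this
    rw [hPQ, smul_mul_assoc, this, mul_smul_comm]
  have hPt : P.val * (ρ (tP a n ^ 2)).val = (ρ' (tP a n ^ 2)).val * P.val := by
    have := hP (tP a (n * 2))
    rwa [MonoidHom.comp_apply, MonoidHom.comp_apply, incP_tP] at this
  -- the elements which are intertwined by `P` form a subgroup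
  let T : Subgroup (GP a n) :=
    { carrier := {x | P.val * (ρ x).val = (ρ' x).val * P.val}
      one_mem' := by
        show P.val * (ρ 1).val = (ρ' 1).val * P.val
        rw [map_one, map_one, Matrix.SpecialLinearGroup.coe_one, mul_one, one_mul]
      mul_mem' := by
        intro x y hx hy
        show P.val * (ρ (x * y)).val = (ρ' (x * y)).val * P.val
        rw [map_mul, map_mul, Matrix.SpecialLinearGroup.coe_mul,
          Matrix.SpecialLinearGroup.coe_mul, ← mul_assoc, hx, mul_assoc, hy, mul_assoc]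
      inv_mem' := by
        intro x hx
        show P.val * (ρ x⁻¹).val = (ρ' x⁻¹).val * P.val
        have h1 : (ρ' x⁻¹).val * (ρ' x).val = 1 := by
          rw [← Matrix.SpecialLinearGroup.coe_mul, ← map_mul, inv_mul_cancel, map_one]; rfl
        have h2 : (ρ x).val * (ρ x⁻¹).val = 1 := by
          rw [← Matrix.SpecialLinearGroup.coe_mul, ← map_mul, mul_inv_cancel, map_one]; rfl
        calc P.val * (ρ x⁻¹).val = (ρ' x⁻¹).val * (ρ' x).val * (P.val * (ρ x⁻¹).val) := by
              rw [h1, one_mul]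
          _ = (ρ' x⁻¹).val * ((ρ' x).val * P.val) * (ρ x⁻¹).val := by simp only [mul_assoc]
          _ = (ρ' x⁻¹).val * (P.val * (ρ x).val) * (ρ x⁻¹).val := by rw [hx]
          _ = (ρ' x⁻¹).val * P.val * ((ρ x).val * (ρ x⁻¹).val) := by simp only [mul_assoc]
          _ = (ρ' x⁻¹).val * P.val := by rw [h2, mul_one] }
  have hTt : tP a n ∈ T := by
    have e : tP a n = tP a n ^ 3 * (tP a n ^ 2)⁻¹ := by group
    rw [e]
    exact T.mul_mem hQt (T.inv_mem hPt)
  have hg : g ∈ T := by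
    obtain ⟨w, k, rfl⟩ := GA_cases (a ^ n) g
    exact T.mul_mem (hPF w) (T.zpow_mem hTt k)
  have hg' : P.val * (ρ g).val = (ρ' g).val * P.val := hg
  have h4 : (ρ' g).val = P.val * (ρ g).val * (P⁻¹).val := by
    rw [hg', mul_assoc, hPi, mul_one]
  unfold tr
  rw [h4, Matrix.trace_mul_comm, ← mul_assoc]
  have h5 : (P⁻¹).val * P.val = 1 := by rw [← Units.val_mul, inv_mul_cancel]; rfl
  rw [h5, one_mul]

/-- MAIN RESULT for `n ≥ 1`: the levels are `n (j + 2) (m + 1)`, `j = 0, 1`, `m = 0, 1, 2` -/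
theorem NI1 (V1 : List Bool) (b : ℕ) (a : MulAut F) (ha : al (Wd V1 b) = a) (n : ℕ) (hn : 1 ≤ n)
    (K : Type) [Field K] (ρ ρ' : GP a n →* SL2 K) (hi : Irr (ρ.comp (iP a n)))
    (hi' : Irr (ρ'.comp (iP a n))) (c : Fin 2 → Fin 3 → ℕ)
    (X : ∀ (j : Fin 2) (m : Fin 3), Fin (c j m) →
      (GP a (n * (j.val + 2) * (m.val + 1)) →* Kˣ))
    (τ : ∀ (j : Fin 2) (m : Fin 3), Fin (c j m) → Kˣ)
    (hX : ∀ (j : Fin 2) (m : Fin 3), Cpl (a ^ (n * (j.val + 2) * (m.val + 1))) (X j m))
    (hE : ∀ (j : Fin 2) (m : Fin 3) (i : Fin (c j m)),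
      Ex1 ((ρ.comp (incP a n (j.val + 2))).comp (incP a (n * (j.val + 2)) (m.val + 1)))
        (X j m i * (pw (τ j m i)).comp (nP a (n * (j.val + 2) * (m.val + 1)))) ∧
      Ex1 ((ρ'.comp (incP a n (j.val + 2))).comp (incP a (n * (j.val + 2)) (m.val + 1)))
        (X j m i * (pw (τ j m i)).comp (nP a (n * (j.val + 2) * (m.val + 1)))))
    (g : GP a n) : tr (ρ g) = tr (ρ' g) := by
  have h : ∀ (j : Fin 2) (y : GP a (n * (j.val + 2))),
      tr (ρ (incP a n (j.val + 2) y)) = tr (ρ' (incP a n (j.val + 2) y)) := by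
    intro j y
    exact NI V1 b a ha (n * (j.val + 2)) (by nlinarith [Nat.zero_le (n * j.val)]) K
      (ρ.comp (incP a n (j.val + 2))) (ρ'.comp (incP a n (j.val + 2)))
      (by rw [comp_iP]; exact hi) (by rw [comp_iP]; exact hi') (c j) (X j) (τ j) (hX j) (hE j) y
  exact glue a n K ρ ρ' hi' (h 0) (h 1) g

end Pool.Agent.F8.NG
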