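import Pool.Agent.Lib.MP_305fdd_al.F8.NG.Defs

/-!
# MP_305fdd_al, positive monodromies: occurrences
-/

set_option autoImplicit false

namespace Pool.Agent.F8.NG

open Pool.Agent.MP_305fdd_al Pool.Agent.Lib.MP_305fdd_al Pool.Agent.F2X Pool.Agent.F8
  Pool.Agent.F8.HN

/-! ### Composition -/

theorem ocp_eq (V V' : List Bool) (y w w' : F) : al V' (al V y * w) * w' =
    al (V ++ V') y * (al V' w * w') := by
  rw [map_mul, al_append, MulAut.mul_apply, mul_assoc]

/-- occurrences compose -/
theorem ocp (V V' : List Bool) : ∀ (i k j : Bool) (w w' : F), w ∈ oc V i k → w' ∈ oc V' k j →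
    al V' w * w' ∈ oc (V ++ V') i j := by
  induction V with
  | nil =>
    intro i k j w w' hw hw'
    have h : oc [] i k = if i = k then [1] else [] := rfl
    rw [h] at hw
    split_ifs at hw with hik
    · subst hik
      rw [List.mem_singleton] at hw
      subst hw
      rw [map_one, one_mul, List.nil_append]
      exact hw'
    · simp at hw
  | cons b V ih =>
    intro i k j w w' hw hw'
    rw [List.cons_append]
    cases b with
    | false =>
      cases i with
      | false =>
        rw [oc_Lx, List.mem_append, List.mem_map] at hw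
        rw [oc_Lx, List.mem_append, List.mem_map]
        rcases hw with hw | ⟨w0, hw0, rfl⟩
        · exact Or.inl (ih false k j w w' hw hw')
        · exact Or.inr ⟨al V' w0 * w', ih true k j w0 w' hw0 hw', (ocp_eq V V' x0 w0 w').symm⟩
      | true =>
        rw [oc_Lu] at hw ⊢
        exact ih true k j w w' hw hw'
    | true =>
      cases i with
      | false =>
        rw [oc_Rx] at hw ⊢
        exact ih false k j w w' hw hw'
      | true =>
        rw [oc_Ru, List.mem_append, List.mem_map] at hw
        rw [oc_Ru, List.mem_append, List.mem_map]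
        rcases hw with hw | ⟨w0, hw0, rfl⟩
        · exact Or.inl (ih true k j w w' hw hw')
        · exact Or.inr ⟨al V' w0 * w', ih false k j w0 w' hw0 hw', (ocp_eq V V' ga w0 w').symm⟩

/-! ### The fundamental formula -/

/-- the sum over a list of prefixes -/
private def ocv_S {R : Type} [CommRing R] (f : F →* Q2 R) (L : List F) (y : Fin 2 → R) :
    Fin 2 → R :=
  (L.map fun w => (f w).t.val • (f w).m.val.mulVec y).sum

private theorem ocv_app {R : Type} [CommRing R] (f : F →* Q2 R) (L L' : List F) (y : Fin 2 → R) :
    ocv_S f (L ++ L') y = ocv_S f L y + ocv_S f L' y := by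
  unfold ocv_S
  rw [List.map_append, List.sum_append]

private theorem ocv_mul {R : Type} [CommRing R] (f : F →* Q2 R) (g : F) (L : List F)
    (y : Fin 2 → R) :
    ocv_S f (L.map (fun w => g * w)) y = (f g).t.val • (f g).m.val.mulVec (ocv_S f L y) := by
  induction L with
  | nil =>
    simp [ocv_S]
  | cons w L ih =>
    have h1 : ∀ (a : F) (K : List F), ocv_S f (a :: K) y =
        (f a).t.val • (f a).m.val.mulVec y + ocv_S f K y := by
      intro a K
      unfold ocv_S
      rw [List.map_cons, List.sum_cons]
    rw [List.map_cons, h1, h1, ih, map_mul, Matrix.mulVec_add, smul_add, Q2.mul_t, Q2.mul_m,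
      Units.val_mul, Matrix.SpecialLinearGroup.coe_mul, Matrix.mulVec_smul, smul_smul,
      Matrix.mulVec_mulVec]

/-- the translation part of an affine representation on `al V (lt i)` -/
theorem ocv {R : Type} [CommRing R] (f : F →* Q2 R) (V : List Bool) (i : Bool) :
    (f (al V (lt i))).v =
      ((oc V i false).map fun w => (f w).t.val • (f w).m.val.mulVec (f x0).v).sum +
      ((oc V i true).map fun w => (f w).t.val • (f w).m.val.mulVec (f ga).v).sum := by
  have key : ∀ i : Bool, (f (al V (lt i))).v =
      ocv_S f (oc V i false) (f x0).v + ocv_S f (oc V i true) (f ga).v := by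
    induction V with
    | nil =>
      intro i
      cases i
      · simp only [ocv_S, oc, lt, al_nil, MulAut.one_apply, if_true, List.map_cons, List.map_nil,
          List.sum_cons, List.sum_nil, map_one, Q2.one_t, Q2.one_m, Units.val_one, one_smul,
          Matrix.SpecialLinearGroup.coe_one, Matrix.one_mulVec, add_zero, Bool.false_eq_true,
          if_false]
      · simp only [ocv_S, oc, lt, al_nil, MulAut.one_apply, if_true, List.map_cons, List.map_nil,
          List.sum_cons, List.sum_nil, map_one, Q2.one_t, Q2.one_m, Units.val_one, one_smul,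
          Matrix.SpecialLinearGroup.coe_one, Matrix.one_mulVec, zero_add, add_zero,
          Bool.true_eq_false, if_false]
    | cons b V ih =>
      have hx := ih false
      have hg := ih true
      change (f (al V x0)).v = _ at hx
      change (f (al V ga)).v = _ at hg
      intro i
      cases b with
      | false =>
        cases i with
        | false =>
          show (f (al (false :: V) x0)).v = _
          rw [al_Lx, oc_Lx, oc_Lx, map_mul, Q2.mul_v, hx, hg, ocv_app, ocv_app, ocv_mul, ocv_mul,
            Matrix.mulVec_add, smul_add]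
          abel
        | true =>
          show (f (al (false :: V) ga)).v = _
          rw [al_Lu, oc_Lu, oc_Lu, hg]
      | true =>
        cases i with
        | false =>
          show (f (al (true :: V) x0)).v = _
          rw [al_Rx, oc_Rx, oc_Rx, hx]
        | true =>
          show (f (al (true :: V) ga)).v = _
          rw [al_Ru, oc_Ru, oc_Ru, map_mul, Q2.mul_v, hx, hg, ocv_app, ocv_app, ocv_mul, ocv_mul,
            Matrix.mulVec_add, smul_add]
          abel
  exact key i

/-! ### Positivity -/

/-- the homomorphism with the values `a cx w + b cu w` -/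
private def cc (a b : ℤ) : F →* Multiplicative ℤ where
  toFun w := Multiplicative.ofAdd (a * cx w + b * cu w)
  map_one' := by rw [cx_one, cu_one]; simp
  map_mul' v w := by
    rw [cx_mul, cu_mul, ← ofAdd_add]
    congr 1
    ring

private theorem cc_ext (f : MulAut F) (a b c d : ℤ)
    (h1 : a * cx (f ga) + b * cu (f ga) = c * cx ga + d * cu ga)
    (h2 : a * cx (f gb) + b * cu (f gb) = c * cx gb + d * cu gb) (w : F) :
    a * cx (f w) + b * cu (f w) = c * cx w + d * cu w := by
  have h : (cc a b).comp f.toMonoidHom = cc c d := by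
    apply hom_ext
    · show Multiplicative.ofAdd _ = Multiplicative.ofAdd _
      exact congrArg _ h1
    · show Multiplicative.ofAdd _ = Multiplicative.ofAdd _
      exact congrArg _ h2
  exact Multiplicative.ofAdd.injective (DFunLike.congr_fun h w)

theorem eL_cx (w : F) : cx (eL w) = cx w ∧ cu (eL w) = cx w + cu w := by
  constructor
  · have := cc_ext eL 1 0 1 0 (by rw [eL_ga]) (by
      rw [eL_gb, cx_mul, cx_inv, cx_ga]; ring) w
    linarith
  · have := cc_ext eL 0 1 1 1 (by rw [eL_ga, cx_ga]; ring) (by
      rw [eL_gb, cu_mul, cu_inv, cu_ga, cx_gb, cu_gb]; ring) w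
    linarith

theorem eR_cx (w : F) : cx (eR w) = cx w + cu w ∧ cu (eR w) = cu w := by
  constructor
  · have := cc_ext eR 1 0 1 1 (by rw [eR_ga, cx_mul, cx_x0, cx_ga, cu_ga]; ring) (by
      rw [eR_gb, cx_gb, cx_ga, cu_gb]; ring) w
    linarith
  · have := cc_ext eR 0 1 0 1 (by rw [eR_ga, cu_mul, cu_x0]; ring) (by
      rw [eR_gb, cu_gb, cu_ga]; ring) w
    linarith

/-- positivity and growth -/
theorem al_pos (V : List Bool) (w : F) : 0 ≤ cx w → 0 ≤ cu w →
    0 ≤ cx (al V w) ∧ 0 ≤ cu (al V w) ∧ cx w + cu w ≤ cx (al V w) + cu (al V w) := by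
  induction V generalizing w with
  | nil => intro h1 h2; exact ⟨h1, h2, le_rfl⟩
  | cons b V ih =>
    intro h1 h2
    rw [al_cons, MulAut.mul_apply]
    cases b with
    | false =>
      obtain ⟨e1, e2⟩ := eL_cx w
      obtain ⟨i1, i2, i3⟩ := ih (eL w) (by omega) (by omega)
      exact ⟨i1, i2, by show _ ≤ cx (al V (eL w)) + cu (al V (eL w)); omega⟩
    | true =>
      obtain ⟨e1, e2⟩ := eR_cx w
      obtain ⟨i1, i2, i3⟩ := ih (eR w) (by omega) (by omega)
      exact ⟨i1, i2, by show _ ≤ cx (al V (eR w)) + cu (al V (eR w)); omega⟩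

private theorem pos_lt (V : List Bool) : (0 ≤ cx (al V x0) ∧ 0 ≤ cu (al V x0)) ∧
    (0 ≤ cx (al V ga) ∧ 0 ≤ cu (al V ga)) := by
  have h1 := al_pos V x0 (by rw [cx_x0]; norm_num) (by rw [cu_x0])
  have h2 := al_pos V ga (by rw [cx_ga]) (by rw [cu_ga]; norm_num)
  exact ⟨⟨h1.1, h1.2.1⟩, ⟨h2.1, h2.2.1⟩⟩

/-- occurrences are prefixes of positive words -/
theorem oc_pos (V : List Bool) : ∀ (i j : Bool) (w : F), w ∈ oc V i j → 0 ≤ cx w ∧ 0 ≤ cu w ∧
    cx w + cx (lt j) ≤ cx (al V (lt i)) ∧ cu w + cu (lt j) ≤ cu (al V (lt i)) := by
  induction V with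
  | nil =>
    intro i j w hw
    unfold oc at hw
    split_ifs at hw with hij
    · rw [List.mem_singleton] at hw
      subst hw hij
      rw [cx_one, cu_one, al_nil, MulAut.one_apply]
      exact ⟨le_rfl, le_rfl, by rw [zero_add], by rw [zero_add]⟩
    · exact absurd hw (List.not_mem_nil)
  | cons b V ih =>
    obtain ⟨⟨hx1, hx2⟩, ⟨hg1, hg2⟩⟩ := pos_lt V
    have e0 : al V (lt false) = al V x0 := rfl
    have e1 : al V (lt true) = al V ga := rfl
    intro i j w hw
    cases b with
    | false =>
      cases i with
      | false =>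
        have e2 : al (false :: V) (lt false) = al V x0 * al V ga := al_Lx V
        rw [oc_Lx, List.mem_append, List.mem_map] at hw
        rw [e2, cx_mul, cu_mul]
        rcases hw with hw | ⟨w0, hw0, rfl⟩
        · obtain ⟨a, b, c, d⟩ := ih false j w hw
          rw [e0] at c d
          exact ⟨a, b, by linarith, by linarith⟩
        · obtain ⟨a, b, c, d⟩ := ih true j w0 hw0
          rw [e1] at c d
          rw [cx_mul, cu_mul]
          exact ⟨by linarith, by linarith, by linarith, by linarith⟩
      | true =>
        have e2 : al (false :: V) (lt true) = al V (lt true) := al_Lu V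
        rw [oc_Lu] at hw
        rw [e2]
        exact ih true j w hw
    | true =>
      cases i with
      | false =>
        have e2 : al (true :: V) (lt false) = al V (lt false) := al_Rx V
        rw [oc_Rx] at hw
        rw [e2]
        exact ih false j w hw
      | true =>
        have e2 : al (true :: V) (lt true) = al V ga * al V x0 := al_Ru V
        rw [oc_Ru, List.mem_append, List.mem_map] at hw
        rw [e2, cx_mul, cu_mul]
        rcases hw with hw | ⟨w0, hw0, rfl⟩
        · obtain ⟨a, b, c, d⟩ := ih true j w hw
          rw [e1] at c d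
          exact ⟨a, b, by linarith, by linarith⟩
        · obtain ⟨a, b, c, d⟩ := ih false j w0 hw0
          rw [e0] at c d
          rw [cx_mul, cu_mul]
          exact ⟨by linarith, by linarith, by linarith, by linarith⟩

/-- products of proper loops are proper loops -/
theorem pr_mul (V V' : List Bool) (w w' : F) (h : Pr V w) (h' : Pr V' w') :
    Pr (V ++ V') (al V' w * w') := by
  obtain ⟨hw, hw1, hw2⟩ := h
  obtain ⟨hw', hw1', hw2'⟩ := h'
  obtain ⟨p1, p2, p3, p4⟩ := oc_pos V true true w hw
  obtain ⟨q1, q2, q3⟩ := al_pos V' w p1 p2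
  have hlt : lt true = ga := rfl
  rw [hlt] at p3 p4
  have hr : al V ga = w * ga * (ga⁻¹ * w⁻¹ * al V ga) := by group
  have hr1 : cx (ga⁻¹ * w⁻¹ * al V ga) = cx (al V ga) - cx w - cx ga := by
    rw [cx_mul, cx_mul, cx_inv, cx_inv]; ring
  have hr2 : cu (ga⁻¹ * w⁻¹ * al V ga) = cu (al V ga) - cu w - cu ga := by
    rw [cu_mul, cu_mul, cu_inv, cu_inv]; ring
  obtain ⟨s1, s2, s3⟩ := al_pos V' (ga⁻¹ * w⁻¹ * al V ga) (by rw [hr1]; linarith)
    (by rw [hr2]; linarith)
  have hcomp : al (V ++ V') ga = al V' w * al V' ga * al V' (ga⁻¹ * w⁻¹ * al V ga) := by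
    rw [← map_mul, ← map_mul, ← hr, al_append, MulAut.mul_apply]
  refine ⟨ocp V V' true true true w w' hw hw', ?_, ?_⟩
  · rw [cx_mul, cu_mul]
    linarith
  · rw [hcomp, cx_mul, cu_mul, cx_mul, cx_mul, cu_mul, cu_mul]
    linarith

/-! ### Positive words as lists -/

/-- the product of a list of letters -/
def pd : List Bool → F
  | [] => 1
  | b :: l => lt b * pd l

theorem pd_append (l l' : List Bool) : pd (l ++ l') = pd l * pd l' := by
  induction l with
  | nil => rw [List.nil_append]; show _ = 1 * _; rw [one_mul]
  | cons b l ih => rw [List.cons_append]; show lt b * _ = lt b * _ * _; rw [ih, mul_assoc]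

theorem pd_len (l : List Bool) : cx (pd l) + cu (pd l) = l.length := by
  induction l with
  | nil => show cx 1 + cu 1 = _; rw [cx_one, cu_one]; rfl
  | cons b l ih =>
    show cx (lt b * pd l) + cu (lt b * pd l) = _
    rw [cx_mul, cu_mul, List.length_cons]
    push_cast
    rw [← ih]
    cases b
    · show cx x0 + _ + (cu x0 + _) = _; rw [cx_x0, cu_x0]; ring
    · show cx ga + _ + (cu ga + _) = _; rw [cx_ga, cu_ga]; ring

/-- the image of a letter as a list -/
def im : List Bool → Bool → List Bool
  | [], i => [i]
  | false :: V, false => im V false ++ im V true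
  | false :: V, true => im V true
  | true :: V, false => im V false
  | true :: V, true => im V true ++ im V false

/-- the image of a list -/
def ims (V : List Bool) (l : List Bool) : List Bool := l.flatMap (im V)

theorem ims_append (V l l' : List Bool) : ims V (l ++ l') = ims V l ++ ims V l' := by
  unfold ims; rw [List.flatMap_append]

theorem ims_single (V : List Bool) (i : Bool) : ims V [i] = im V i := by
  unfold ims; simp

theorem ims_cons (V : List Bool) (i : Bool) (l : List Bool) :
    ims V (i :: l) = im V i ++ ims V l := rfl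

theorem im_append (V V' : List Bool) (i : Bool) : im (V ++ V') i = ims V' (im V i) := by
  induction V generalizing i with
  | nil => rw [List.nil_append]; show _ = ims V' [i]; rw [ims_single]
  | cons b V ih =>
    rw [List.cons_append]
    cases b <;> cases i
    · show im (V ++ V') false ++ im (V ++ V') true = ims V' (im V false ++ im V true)
      rw [ims_append, ih, ih]
    · exact ih true
    · exact ih false
    · show im (V ++ V') true ++ im (V ++ V') false = ims V' (im V true ++ im V false)
      rw [ims_append, ih, ih]

theorem ims_ims (V V' l : List Bool) : ims V' (ims V l) = ims (V ++ V') l := by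
  induction l with
  | nil => rfl
  | cons i l ih => rw [ims_cons, ims_append, ih, ims_cons, im_append]

theorem pd_im (V : List Bool) (i : Bool) : pd (im V i) = al V (lt i) := by
  induction V generalizing i with
  | nil => show lt i * 1 = _; rw [mul_one]; rfl
  | cons b V ih =>
    cases b <;> cases i
    · show pd (im V false ++ im V true) = al (false :: V) x0
      rw [pd_append, ih, ih, al_Lx]; rfl
    · show pd (im V true) = al (false :: V) ga
      rw [ih, al_Lu]; rfl
    · show pd (im V false) = al (true :: V) x0
      rw [ih, al_Rx]; rfl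
    · show pd (im V true ++ im V false) = al (true :: V) ga
      rw [pd_append, ih, ih, al_Ru]; rfl

/-- images start with the letter -/
theorem im_head (V : List Bool) (i : Bool) : ∃ l, im V i = i :: l := by
  induction V generalizing i with
  | nil => exact ⟨[], rfl⟩
  | cons b V ih =>
    cases b <;> cases i
    · obtain ⟨l, hl⟩ := ih false
      exact ⟨l ++ im V true, by show im V false ++ im V true = _; rw [hl]; rfl⟩
    · exact ih true
    · exact ih false
    · obtain ⟨l, hl⟩ := ih true
      exact ⟨l ++ im V false, by show im V true ++ im V false = _; rw [hl]; rfl⟩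

theorem split_append {A B l1 l2 : List Bool} {j : Bool} (h : A ++ B = l1 ++ j :: l2) :
    (∃ c, A = l1 ++ j :: c) ∨ ∃ c, B = c ++ j :: l2 ∧ l1 = A ++ c := by
  rw [List.append_eq_append_iff] at h
  rcases h with ⟨c, h1, h2⟩ | ⟨c, h1, h2⟩
  · exact Or.inr ⟨c, h2, h1⟩
  · cases c with
    | nil =>
      rw [List.nil_append] at h2
      exact Or.inr ⟨[], by rw [List.nil_append, h2], by rw [List.append_nil, h1, List.append_nil]⟩
    | cons d c =>
      rw [List.cons_append, List.cons.injEq] at h2
      obtain ⟨h3, h4⟩ := h2
      subst h3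
      exact Or.inl ⟨c, h1⟩

/-- letters of the image are occurrences -/
theorem oc_of_im (V : List Bool) : ∀ (i j : Bool) (l1 l2 : List Bool), im V i = l1 ++ j :: l2 →
    pd l1 ∈ oc V i j := by
  induction V with
  | nil =>
    intro i j l1 l2 h
    have h' : [i] = l1 ++ j :: l2 := h
    cases l1 with
    | nil =>
      rw [List.nil_append, List.cons.injEq] at h'
      obtain ⟨rfl, _⟩ := h'
      simp [oc, pd]
    | cons a l1 => simp at h'
  | cons b V ih =>
    intro i j l1 l2 h
    cases b <;> cases i
    · rw [oc_Lx, List.mem_append, List.mem_map]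
      rcases split_append (A := im V false) (B := im V true) h with ⟨c, hc⟩ | ⟨c, hc, hc'⟩
      · exact Or.inl (ih false j l1 c hc)
      · exact Or.inr ⟨pd c, ih true j c l2 hc, by rw [hc', pd_append, pd_im]; rfl⟩
    · exact ih true j l1 l2 h
    · exact ih false j l1 l2 h
    · rw [oc_Ru, List.mem_append, List.mem_map]
      rcases split_append (A := im V true) (B := im V false) h with ⟨c, hc⟩ | ⟨c, hc, hc'⟩
      · exact Or.inl (ih true j l1 c hc)
      · exact Or.inr ⟨pd c, ih false j c l2 hc, by rw [hc', pd_append, pd_im]; rfl⟩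

/-- a proper occurrence from the image -/
theorem pr_of_im (V l1 l2 : List Bool) (h : im V true = l1 ++ true :: l2) (h1 : l1 ≠ [])
    (h2 : l2 ≠ []) : Pr V (pd l1) := by
  have e : cx (al V ga) + cu (al V ga) = (im V true).length := by
    rw [← pd_len, pd_im]; rfl
  refine ⟨oc_of_im V true true l1 l2 h, ?_, ?_⟩
  · rw [pd_len]
    have := List.length_pos_iff.2 h1
    exact_mod_cast this
  · rw [pd_len, e, h]
    have := List.length_pos_iff.2 h2
    simp only [List.length_append, List.length_cons]
    push_cast
    omega

end Pool.Agent.F8.NG
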